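import Pool.Agent.Q10.E8.TabV

set_option autoImplicit false

namespace Pool.Agent.Q10.E8

theorem cnt8 : ∀ b0 b1 b2 b3 b4 b5 b6 b7 : Bool,
    (b0 || b1 || b2 || b3 || b4 || b5 || b6 || b7) = true →
    ((LV.filter (ob b0 b1 b2 b3 b4 b5 b6 b7)).length
      == bif qpar b0 b1 b2 b3 b4 b5 b6 b7 then 56 else 64) = true := by
  decide +kernel

theorem quad8 : ∀ b0 b1 b2 b3 b4 b5 b6 b7 : Bool,
    (b0 || b1 || b2 || b3 || b4 || b5 || b6 || b7) = true →
    qpar b0 b1 b2 b3 b4 b5 b6 b7 = false →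
    mchk (LV.filter (ob b0 b1 b2 b3 b4 b5 b6 b7)) = true := by
  decide +kernel

end Pool.Agent.Q10.E8
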