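import Pool.Agent.Q10.E8.Sph

set_option autoImplicit false

open MeasureTheory Metric Set
open scoped RealInnerProductSpace

namespace Pool.Agent.Q10.E8

/-- `v` is twice a vector of the E8 lattice. -/
def IsE8 (v : Fin 8 → ℤ) : Prop := (∀ i j, v i % 2 = v j % 2) ∧ (∑ i, v i) % 4 = 0

/-- The shell of norm `2m`, in doubled coordinates. -/
def InShell (m : ℕ) (v : Fin 8 → ℤ) : Prop := IsE8 v ∧ ∑ i, v i ^ 2 = 8 * (m : ℤ)

/-- Cubature formula of degree `t` on the sphere of squared radius `2m`. -/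
def Cubature (t m : ℕ) (Y : Finset (Fin 8 → ℤ)) (w : (Fin 8 → ℤ) → ℝ) : Prop :=
  ∀ p : MvPolynomial (Fin 8) ℝ, p.totalDegree ≤ t →
    (∑ v ∈ Y, w v * MvPolynomial.eval (fun i => (v i : ℝ) / 2) p)
      * ((MeasureTheory.volume : MeasureTheory.Measure (EuclideanSpace ℝ (Fin 8))).toSphere
          Set.univ).toReal
    = (∑ v ∈ Y, w v)
      * ∫ u, MvPolynomial.eval
            (fun i => Real.sqrt (2 * (m : ℝ)) * (u : EuclideanSpace ℝ (Fin 8)) i) p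
          ∂((MeasureTheory.volume : MeasureTheory.Measure (EuclideanSpace ℝ (Fin 8))).toSphere)

noncomputable def lin (z : E) : MvPolynomial (Fin 8) ℝ := ∑ i, MvPolynomial.C (z i) * MvPolynomial.X i

theorem eval_lin (z : E) (x : Fin 8 → ℝ) : MvPolynomial.eval x (lin z) = ∑ i, z i * x i := by
  simp [lin]

theorem deg_lin (z : E) : (lin z).totalDegree ≤ 1 := by
  unfold lin
  refine (MvPolynomial.totalDegree_finsetSum _ _).trans ?_
  refine Finset.sup_le fun i _ => ?_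
  refine (MvPolynomial.totalDegree_mul _ _).trans ?_
  simp

theorem deg_lin_pow (z : E) (k : ℕ) : (lin z ^ k).totalDegree ≤ k := by
  refine (MvPolynomial.totalDegree_pow _ _).trans ?_
  have := deg_lin z
  calc k * (lin z).totalDegree ≤ k * 1 := Nat.mul_le_mul_left _ this
    _ = k := mul_one _

theorem moment {t m : ℕ} {Y : Finset (Fin 8 → ℤ)} {w : (Fin 8 → ℤ) → ℝ} (h : Cubature t m Y w)
    (z : E) (k : ℕ) (hk : k ≤ t) :
    (∑ v ∈ Y, w v * (∑ i, z i * ((v i : ℝ) / 2)) ^ k) * sg.real Set.univ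
      = (∑ v ∈ Y, w v) * (Real.sqrt (2 * (m : ℝ)) ^ k * F k z) := by
  have h1 := h (lin z ^ k) ((deg_lin_pow z k).trans hk)
  simp only [map_pow, eval_lin] at h1
  have h2 : ∀ u : S7, (∑ i, z i * (Real.sqrt (2 * (m : ℝ)) * (u : E) i)) ^ k
      = Real.sqrt (2 * (m : ℝ)) ^ k * ⟪(u : E), z⟫ ^ k := by
    intro u
    rw [← mul_pow]
    congr 1
    rw [PiLp.inner_apply, Finset.mul_sum]
    refine Finset.sum_congr rfl fun i _ => ?_
    simp
    ring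
  simp only [h2] at h1
  rw [integral_const_mul] at h1
  exact h1

/-- pairing of doubled coordinates -/
def pr (v r : Fin 8 → ℤ) : ℤ := (∑ i, v i * r i) / 4

theorem four_dvd (v r : Fin 8 → ℤ) (hv : IsE8 v) (hr : IsE8 r) : (4 : ℤ) ∣ ∑ i, v i * r i := by
  obtain ⟨h1, h2⟩ := hv
  obtain ⟨h3, h4⟩ := hr
  -- write v i = v 0 + 2 a i, r i = r 0 + 2 b i
  have ha : ∀ i, ∃ a : ℤ, v i = v 0 + 2 * a := by
    intro i
    have := h1 i 0
    exact ⟨(v i - v 0) / 2, by omega⟩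
  have hb : ∀ i, ∃ a : ℤ, r i = r 0 + 2 * a := by
    intro i
    have := h3 i 0
    exact ⟨(r i - r 0) / 2, by omega⟩
  choose a ha using ha
  choose b hb using hb
  have e1 : ∑ i, v i = 8 * v 0 + 2 * ∑ i, a i := by
    rw [Finset.sum_congr rfl fun i _ => ha i, Finset.sum_add_distrib, ← Finset.mul_sum]
    simp
  have e2 : ∑ i, r i = 8 * r 0 + 2 * ∑ i, b i := by
    rw [Finset.sum_congr rfl fun i _ => hb i, Finset.sum_add_distrib, ← Finset.mul_sum]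
    simp
  have e3 : ∑ i, v i * r i = 8 * (v 0 * r 0) + 2 * v 0 * (∑ i, b i) + 2 * r 0 * (∑ i, a i)
      + 4 * ∑ i, a i * b i := by
    have : ∀ i, v i * r i = v 0 * r 0 + 2 * v 0 * b i + 2 * r 0 * a i + 4 * (a i * b i) := by
      intro i
      rw [ha i, hb i]; ring
    rw [Finset.sum_congr rfl fun i _ => this i, Finset.sum_add_distrib, Finset.sum_add_distrib,
      Finset.sum_add_distrib, Finset.sum_const, Finset.mul_sum, Finset.mul_sum, Finset.mul_sum]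
    simp
  rw [e3]
  have f1 : (2 : ℤ) ∣ ∑ i, a i := by omega
  have f2 : (2 : ℤ) ∣ ∑ i, b i := by omega
  obtain ⟨A, hA⟩ := f1
  obtain ⟨B, hB⟩ := f2
  rw [hA, hB]
  exact ⟨2 * (v 0 * r 0) + v 0 * B + r 0 * A + ∑ i, a i * b i, by ring⟩

theorem pr_spec (v r : Fin 8 → ℤ) (hv : IsE8 v) (hr : IsE8 r) : 4 * pr v r = ∑ i, v i * r i :=
  Int.mul_ediv_cancel' (four_dvd v r hv hr)

theorem aux_z {Y : Finset (Fin 8 → ℤ)} (hY : ∀ v ∈ Y, IsE8 v) (r : Fin 8 → ℤ) (hr : IsE8 r) :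
    ∀ v ∈ Y, ∑ i, (WithLp.toLp 2 fun i => (r i : ℝ) / 2 : E) i * ((v i : ℝ) / 2) = (pr v r : ℝ) := by
  intro v hv
  have h1 := pr_spec v r (hY v hv) hr
  have h2 : (4 : ℝ) * (pr v r : ℝ) = ∑ i, (v i : ℝ) * (r i : ℝ) := by
    exact_mod_cast h1
  have h3 : ∑ i, (WithLp.toLp 2 fun i => (r i : ℝ) / 2 : E) i * ((v i : ℝ) / 2)
      = (∑ i, (v i : ℝ) * (r i : ℝ)) / 4 := by
    rw [Finset.sum_div]
    refine Finset.sum_congr rfl fun i _ => ?_
    show (r i : ℝ) / 2 * ((v i : ℝ) / 2) = _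
    ring
  rw [h3, ← h2]; ring

/-- The odd moments vanish. -/
theorem moments_odd {t m : ℕ} {Y : Finset (Fin 8 → ℤ)} {w : (Fin 8 → ℤ) → ℝ} (h : Cubature t m Y w)
    (hY : ∀ v ∈ Y, IsE8 v) (r : Fin 8 → ℤ) (hr : IsE8 r) (k : ℕ) (hk : Odd k) (hkt : k ≤ t) :
    ∑ v ∈ Y, w v * (pr v r : ℝ) ^ k = 0 := by
  have h1 := moment h (WithLp.toLp 2 fun i => (r i : ℝ) / 2) k hkt
  rw [F_odd k hk, mul_zero, mul_zero] at h1
  have h2 := (mul_eq_zero.mp h1).resolve_right vol_pos.ne'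
  rw [← h2]
  refine Finset.sum_congr rfl fun v hv => ?_
  rw [aux_z hY r hr v hv]

/-- Integral moments of a cubature formula on a shell. -/
theorem moments_int {t m : ℕ} {Y : Finset (Fin 8 → ℤ)} {w : (Fin 8 → ℤ) → ℝ} (h : Cubature t m Y w)
    (ht : 8 ≤ t) (hY : ∀ v ∈ Y, IsE8 v) (r : Fin 8 → ℤ) (hr : IsE8 r) (s : ℕ)
    (hs : ∑ i, r i ^ 2 = 8 * (s : ℤ)) :
    2 * ∑ v ∈ Y, w v * (pr v r : ℝ) ^ 2 = (∑ v ∈ Y, w v) * ((m : ℝ) * s) ∧
    5 * ∑ v ∈ Y, w v * (pr v r : ℝ) ^ 4 = (∑ v ∈ Y, w v) * (3 * ((m : ℝ) * s) ^ 2) ∧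
    ∑ v ∈ Y, w v * (pr v r : ℝ) ^ 6 = (∑ v ∈ Y, w v) * ((m : ℝ) * s) ^ 3 ∧
    ∑ v ∈ Y, w v * (pr v r : ℝ) ^ 8 = (∑ v ∈ Y, w v) * (2 * ((m : ℝ) * s) ^ 4) := by
  set z : E := (WithLp.toLp 2 fun i => (r i : ℝ) / 2) with hz
  have hzi : ∀ i, z i = (r i : ℝ) / 2 := fun i => rfl
  have hpr : ∀ v ∈ Y, ∑ i, z i * ((v i : ℝ) / 2) = (pr v r : ℝ) := by
    intro v hv
    have h1 := pr_spec v r (hY v hv) hr
    have h2 : (4 : ℝ) * (pr v r : ℝ) = ∑ i, (v i : ℝ) * (r i : ℝ) := by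
      exact_mod_cast h1
    have h3 : ∑ i, z i * ((v i : ℝ) / 2) = (∑ i, (v i : ℝ) * (r i : ℝ)) / 4 := by
      rw [Finset.sum_div]
      refine Finset.sum_congr rfl fun i _ => ?_
      rw [hzi]; ring
    rw [h3, ← h2]; ring
  have hnorm : ‖z‖ ^ 2 = 2 * s := by
    rw [EuclideanSpace.norm_sq_eq]
    have : ∀ i, ‖z i‖ ^ 2 = (r i : ℝ) ^ 2 / 4 := by
      intro i
      rw [hzi, Real.norm_eq_abs, sq_abs]; ring
    rw [Finset.sum_congr rfl fun i _ => this i, ← Finset.sum_div]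
    have h2 : ∑ i, (r i : ℝ) ^ 2 = 8 * s := by exact_mod_cast hs
    rw [h2]; ring
  have hV := vol_pos
  obtain ⟨m2, m4, m6, m8⟩ := moments z
  have key : ∀ k, k ≤ t → (∑ v ∈ Y, w v * (pr v r : ℝ) ^ k) * sg.real Set.univ
      = (∑ v ∈ Y, w v) * (Real.sqrt (2 * (m : ℝ)) ^ k * F k z) := by
    intro k hk
    rw [← moment h z k hk]
    congr 1
    refine Finset.sum_congr rfl fun v hv => ?_
    rw [hpr v hv]
  have hsq : Real.sqrt (2 * (m : ℝ)) ^ 2 = 2 * m := Real.sq_sqrt (by positivity)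
  have s4 : Real.sqrt (2 * (m : ℝ)) ^ 4 = (2 * m) ^ 2 := by
    rw [show 4 = 2 * 2 from rfl, pow_mul, hsq]
  have s6 : Real.sqrt (2 * (m : ℝ)) ^ 6 = (2 * m) ^ 3 := by
    rw [show 6 = 2 * 3 from rfl, pow_mul, hsq]
  have s8 : Real.sqrt (2 * (m : ℝ)) ^ 8 = (2 * m) ^ 4 := by
    rw [show 8 = 2 * 4 from rfl, pow_mul, hsq]
  have n4 : ‖z‖ ^ 4 = (2 * s) ^ 2 := by rw [← hnorm]; ring
  have n6 : ‖z‖ ^ 6 = (2 * s) ^ 3 := by rw [← hnorm]; ring
  have n8 : ‖z‖ ^ 8 = (2 * s) ^ 4 := by rw [← hnorm]; ring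
  have k2 := key 2 (by omega)
  have k4 := key 4 (by omega)
  have k6 := key 6 (by omega)
  have k8 := key 8 (by omega)
  rw [m2, hsq, hnorm] at k2
  rw [m4, s4, n4] at k4
  rw [m6, s6, n6] at k6
  rw [m8, s8, n8] at k8
  generalize sg.real Set.univ = V at hV k2 k4 k6 k8
  generalize (∑ v ∈ Y, w v) = W at k2 k4 k6 k8 ⊢
  refine ⟨?_, ?_, ?_, ?_⟩
  · apply mul_right_cancel₀ hV.ne'
    linear_combination 2 * k2
  · apply mul_right_cancel₀ hV.ne'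
    linear_combination 5 * k4
  · apply mul_right_cancel₀ hV.ne'
    linear_combination k6
  · apply mul_right_cancel₀ hV.ne'
    linear_combination k8

end Pool.Agent.Q10.E8
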