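import Pool.Agent.Q10.E8.Cub

set_option autoImplicit false

open MeasureTheory Metric Set

namespace Pool.Agent.Q10.E8

/-- The divisor polynomial. -/
def Fp (M : ℤ) : ℤ := M * (10 * M ^ 3 - 70 * M ^ 2 + 147 * M - 90)

def R8 (a : ℤ) : ℤ := (a + 4) * (a + 3) * (a + 2) * (a + 1) * a * (a - 1) * (a - 2) * (a - 3)

def R6 (a : ℤ) : ℤ := (a + 3) * (a + 2) * (a + 1) * a * (a - 1) * (a - 2)

theorem dvd_of_zmod (n : ℕ) (a : ℤ) (h : (a : ZMod n) = 0) : (n : ℤ) ∣ a :=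
  (ZMod.intCast_zmod_eq_zero_iff_dvd a n).mp h

theorem R8_dvd (a : ℤ) : (40320 : ℤ) ∣ R8 a := by
  have h64 : (128 : ℤ) ∣ R8 a := by
    apply dvd_of_zmod 128
    unfold R8
    push_cast
    generalize (a : ZMod 128) = x
    revert x
    decide +kernel
  have h9 : (9 : ℤ) ∣ R8 a := by
    apply dvd_of_zmod 9
    unfold R8
    push_cast
    generalize (a : ZMod 9) = x
    revert x
    decide +kernel
  have h5 : (5 : ℤ) ∣ R8 a := by
    apply dvd_of_zmod 5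
    unfold R8
    push_cast
    generalize (a : ZMod 5) = x
    revert x
    decide +kernel
  have h7 : (7 : ℤ) ∣ R8 a := by
    apply dvd_of_zmod 7
    unfold R8
    push_cast
    generalize (a : ZMod 7) = x
    revert x
    decide +kernel
  omega

theorem R6_dvd (a : ℤ) : (9 : ℤ) ∣ R6 a := by
  apply dvd_of_zmod 9
  unfold R6
  push_cast
  generalize (a : ZMod 9) = x
  revert x
  decide +kernel

/-- There are lattice vectors of every even norm. -/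
theorem exists_vec (s : ℕ) : ∃ r : Fin 8 → ℤ, IsE8 r ∧ ∑ i, r i ^ 2 = 8 * (s : ℤ) := by
  obtain ⟨a, b, c, d, h⟩ := Nat.sum_four_squares (2 * s)
  refine ⟨![2 * a, 2 * b, 2 * c, 2 * d, 0, 0, 0, 0], ⟨?_, ?_⟩, ?_⟩
  · intro i j
    fin_cases i <;> fin_cases j <;> simp
  · rw [Fin.sum_univ_eight]
    simp
    have h1 : (a ^ 2 + b ^ 2 + c ^ 2 + d ^ 2) % 2 = 0 := by omega
    have h2 : ∀ x : ℕ, x ^ 2 % 2 = x % 2 := by
      intro x
      rcases Nat.mod_two_eq_zero_or_one x with h | h <;> simp [Nat.pow_mod, h]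
    have := h2 a
    have := h2 b
    have := h2 c
    have := h2 d
    omega
  · rw [Fin.sum_univ_eight]
    simp
    have h1 : ((a : ℤ) ^ 2 + b ^ 2 + c ^ 2 + d ^ 2) = 2 * s := by exact_mod_cast h
    linear_combination 4 * h1

theorem identities {t m : ℕ} {Y : Finset (Fin 8 → ℤ)} {w : (Fin 8 → ℤ) → ℤ}
    (h : Cubature t m Y (fun v => (w v : ℝ))) (ht : 8 ≤ t) (hY : ∀ v ∈ Y, IsE8 v)
    (r : Fin 8 → ℤ) (hr : IsE8 r) (s : ℕ) (hs : ∑ i, r i ^ 2 = 8 * (s : ℤ)) :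
    5 * ∑ v ∈ Y, w v * R8 (pr v r) = Fp (m * s) * ∑ v ∈ Y, w v ∧
    ∑ v ∈ Y, w v * R6 (pr v r) = ((m * s) * (m * s - 1) * (m * s - 2)) * ∑ v ∈ Y, w v := by
  obtain ⟨h2, h4, h6, h8⟩ := moments_int h ht hY r hr s hs
  have h1 := moments_odd h hY r hr 1 (by decide) (by omega)
  have h3 := moments_odd h hY r hr 3 (by decide) (by omega)
  have h5 := moments_odd h hY r hr 5 (by decide) (by omega)
  have h7 := moments_odd h hY r hr 7 (by decide) (by omega)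
  have key : (5 : ℝ) * ∑ v ∈ Y, (w v : ℝ) * (R8 (pr v r) : ℝ)
      = (Fp (m * s) : ℝ) * ∑ v ∈ Y, (w v : ℝ) := by
    have e1 : ∑ v ∈ Y, (w v : ℝ) * (R8 (pr v r) : ℝ)
        = ∑ v ∈ Y, (w v : ℝ) * (pr v r : ℝ) ^ 8 + 4 * ∑ v ∈ Y, (w v : ℝ) * (pr v r : ℝ) ^ 7
          - 14 * ∑ v ∈ Y, (w v : ℝ) * (pr v r : ℝ) ^ 6
          - 56 * ∑ v ∈ Y, (w v : ℝ) * (pr v r : ℝ) ^ 5
          + 49 * ∑ v ∈ Y, (w v : ℝ) * (pr v r : ℝ) ^ 4
          + 196 * ∑ v ∈ Y, (w v : ℝ) * (pr v r : ℝ) ^ 3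
          - 36 * ∑ v ∈ Y, (w v : ℝ) * (pr v r : ℝ) ^ 2
          - 144 * ∑ v ∈ Y, (w v : ℝ) * (pr v r : ℝ) ^ 1 := by
      simp only [Finset.mul_sum]
      rw [← Finset.sum_add_distrib, ← Finset.sum_sub_distrib, ← Finset.sum_sub_distrib,
        ← Finset.sum_add_distrib, ← Finset.sum_add_distrib, ← Finset.sum_sub_distrib,
        ← Finset.sum_sub_distrib]
      refine Finset.sum_congr rfl fun v _ => ?_
      unfold R8
      push_cast
      ring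
    rw [e1, h1, h3, h5, h7]
    unfold Fp
    push_cast
    linear_combination 5 * h8 - 70 * h6 + 49 * h4 - 90 * h2
  have key6 : ∑ v ∈ Y, (w v : ℝ) * (R6 (pr v r) : ℝ)
      = (((m : ℝ) * s) * ((m : ℝ) * s - 1) * ((m : ℝ) * s - 2)) * ∑ v ∈ Y, (w v : ℝ) := by
    have e1 : ∑ v ∈ Y, (w v : ℝ) * (R6 (pr v r) : ℝ)
        = ∑ v ∈ Y, (w v : ℝ) * (pr v r : ℝ) ^ 6 + 3 * ∑ v ∈ Y, (w v : ℝ) * (pr v r : ℝ) ^ 5
          - 5 * ∑ v ∈ Y, (w v : ℝ) * (pr v r : ℝ) ^ 4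
          - 15 * ∑ v ∈ Y, (w v : ℝ) * (pr v r : ℝ) ^ 3
          + 4 * ∑ v ∈ Y, (w v : ℝ) * (pr v r : ℝ) ^ 2
          + 12 * ∑ v ∈ Y, (w v : ℝ) * (pr v r : ℝ) ^ 1 := by
      simp only [Finset.mul_sum]
      rw [← Finset.sum_add_distrib, ← Finset.sum_sub_distrib, ← Finset.sum_sub_distrib,
        ← Finset.sum_add_distrib, ← Finset.sum_add_distrib]
      refine Finset.sum_congr rfl fun v _ => ?_
      unfold R6
      push_cast
      ring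
    rw [e1, h1, h3, h5]
    linear_combination h6 - h4 + 2 * h2
  refine ⟨by exact_mod_cast key, by exact_mod_cast key6⟩

theorem div_main {t m : ℕ} {Y : Finset (Fin 8 → ℤ)} {w : (Fin 8 → ℤ) → ℤ}
    (h : Cubature t m Y (fun v => (w v : ℝ))) (ht : 8 ≤ t) (hY : ∀ v ∈ Y, IsE8 v) (s : ℕ) :
    (201600 : ℤ) ∣ Fp (m * s) * ∑ v ∈ Y, w v ∧
    (9 : ℤ) ∣ ((m * s) * (m * s - 1) * (m * s - 2)) * ∑ v ∈ Y, w v := by
  obtain ⟨r, hr, hs⟩ := exists_vec s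
  obtain ⟨h1, h6⟩ := identities h ht hY r hr s hs
  rw [← h1, ← h6]
  have h2 : (40320 : ℤ) ∣ ∑ v ∈ Y, w v * R8 (pr v r) :=
    Finset.dvd_sum fun v _ => Dvd.dvd.mul_left (R8_dvd _) _
  have h3 : (5 * 40320 : ℤ) ∣ 5 * ∑ v ∈ Y, w v * R8 (pr v r) := mul_dvd_mul_left 5 h2
  norm_num at h3
  exact ⟨h3, Finset.dvd_sum fun v _ => Dvd.dvd.mul_left (R6_dvd _) _⟩

/-- `D(m)`. -/
def D (m : ℕ) : ℤ :=
  (if 7 ∣ m then 1 else 7) * (if 5 ∣ m then 1 else 25) *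
    (if 9 ∣ m then 1 else if 3 ∣ m then 3 else 9) *
    (if 64 ∣ m then 1 else if 32 ∣ m then 2 else if 16 ∣ m then 4 else if 8 ∣ m then 8
      else if 2 ∣ m then 16 else 128)

theorem cast_ne {m : ℕ} (n : ℕ) (hn : ¬ n ∣ m) : ((m : ℤ) : ZMod n) ≠ 0 := by
  intro h0
  apply hn
  have := dvd_of_zmod n m h0
  exact_mod_cast this

theorem pow_two_aux {e f : ℕ} {A W : ℤ} (hA : ∃ k : ℤ, A = 2 ^ e * (2 * k + 1))
    (h : (2 : ℤ) ^ (e + f) ∣ A * W) : (2 : ℤ) ^ f ∣ W := by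
  obtain ⟨k, rfl⟩ := hA
  have h7 : (2 : ℤ) ^ e * 2 ^ f ∣ 2 ^ e * ((2 * k + 1) * W) := by
    rw [← pow_add, ← mul_assoc]; exact h
  have h8 : (2 : ℤ) ^ f ∣ (2 * k + 1) * W := (mul_dvd_mul_iff_left (by positivity)).mp h7
  have hc : IsCoprime ((2 : ℤ) ^ f) (2 * k + 1) := IsCoprime.pow_left ⟨-k, 1, by ring⟩
  exact hc.dvd_of_dvd_mul_left h8

theorem part7 {m : ℕ} {W : ℤ} (h : ∀ s : ℕ, (201600 : ℤ) ∣ Fp (m * s) * W) (h7 : ¬ 7 ∣ m) :
    (7 : ℤ) ∣ W := by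
  have h2 : (7 : ℤ) ∣ Fp (m * (1 : ℕ)) * W := Dvd.dvd.trans (by norm_num) (h 1)
  have hp : Prime (7 : ℤ) := by norm_num
  rcases hp.dvd_or_dvd h2 with h3 | h3
  · exfalso
    have h4 : ((Fp (m * (1 : ℕ)) : ℤ) : ZMod 7) = 0 := (ZMod.intCast_zmod_eq_zero_iff_dvd _ 7).mpr h3
    have h5 := cast_ne 7 h7
    unfold Fp at h4
    push_cast at h4 h5
    generalize (m : ZMod 7) = x at h4 h5
    revert x
    decide +kernel
  · exact h3

theorem part5 {m : ℕ} {W : ℤ} (h : ∀ s : ℕ, (201600 : ℤ) ∣ Fp (m * s) * W) (h5m : ¬ 5 ∣ m) :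
    (25 : ℤ) ∣ W := by
  have h2 : (25 : ℤ) ∣ Fp (m * (1 : ℕ)) * W := Dvd.dvd.trans (by norm_num) (h 1)
  have hp : Prime (5 : ℤ) := by norm_num
  have hnd : ¬ (5 : ℤ) ∣ Fp (m * (1 : ℕ)) := by
    intro h3
    have h4 : ((Fp (m * (1 : ℕ)) : ℤ) : ZMod 5) = 0 := (ZMod.intCast_zmod_eq_zero_iff_dvd _ 5).mpr h3
    have h5 := cast_ne 5 h5m
    unfold Fp at h4
    push_cast at h4 h5
    generalize (m : ZMod 5) = x at h4 h5
    revert x
    decide +kernel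
  have hc : IsCoprime ((5 : ℤ) ^ 2) (Fp (m * (1 : ℕ))) :=
    IsCoprime.pow_left ((Prime.coprime_iff_not_dvd hp).mpr hnd)
  norm_num at hc
  exact hc.dvd_of_dvd_mul_left (by simpa using h2)

theorem part3 {m : ℕ} {W : ℤ} (h : ∀ s : ℕ, (201600 : ℤ) ∣ Fp (m * s) * W) (h3m : ¬ 3 ∣ m) :
    (9 : ℤ) ∣ W := by
  have hp : Prime (3 : ℤ) := by norm_num
  have hnd : ¬ (3 : ℤ) ∣ Fp (m * (1 : ℕ)) ∨ ¬ (3 : ℤ) ∣ Fp (m * (2 : ℕ)) := by
    by_contra hcon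
    push Not at hcon
    obtain ⟨c1, c2⟩ := hcon
    have h4 : ((Fp (m * (1 : ℕ)) : ℤ) : ZMod 3) = 0 := (ZMod.intCast_zmod_eq_zero_iff_dvd _ 3).mpr c1
    have h4' : ((Fp (m * (2 : ℕ)) : ℤ) : ZMod 3) = 0 := (ZMod.intCast_zmod_eq_zero_iff_dvd _ 3).mpr c2
    have h5 := cast_ne 3 h3m
    unfold Fp at h4 h4'
    push_cast at h4 h4' h5
    generalize (m : ZMod 3) = x at h4 h4' h5
    revert x
    decide +kernel
  have fin : ∀ s : ℕ, ¬ (3 : ℤ) ∣ Fp (m * s) → (9 : ℤ) ∣ W := by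
    intro s hs
    have h2 : (9 : ℤ) ∣ Fp (m * s) * W := Dvd.dvd.trans (by norm_num) (h s)
    have hc : IsCoprime ((3 : ℤ) ^ 2) (Fp (m * s)) :=
      IsCoprime.pow_left ((Prime.coprime_iff_not_dvd hp).mpr hs)
    norm_num at hc
    exact hc.dvd_of_dvd_mul_left h2
  rcases hnd with h' | h'
  · exact fin 1 h'
  · exact fin 2 h'

theorem part9 {m : ℕ} {W : ℤ}
    (h : (9 : ℤ) ∣ ((m * (1 : ℕ)) * (m * (1 : ℕ) - 1) * (m * (1 : ℕ) - 2)) * W) (h9 : ¬ 9 ∣ m)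
    (h3 : 3 ∣ m) : (3 : ℤ) ∣ W := by
  obtain ⟨k, rfl⟩ := h3
  have hp : Prime (3 : ℤ) := by norm_num
  push_cast at h
  have h1 : (3 : ℤ) * 3 ∣ 3 * ((k * (3 * k - 1) * (3 * k - 2)) * W) := by
    norm_num
    convert h using 1
    ring
  have h2 : (3 : ℤ) ∣ (k * (3 * k - 1) * (3 * k - 2)) * W := (mul_dvd_mul_iff_left (by norm_num)).mp h1
  rcases hp.dvd_or_dvd h2 with h3 | h3
  · exfalso
    rcases hp.dvd_or_dvd h3 with h4 | h4
    · rcases hp.dvd_or_dvd h4 with h5 | h5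
      · apply h9
        have : 3 ∣ k := by exact_mod_cast h5
        omega
      · omega
    · omega
  · exact h3

theorem part2 {m : ℕ} {W : ℤ} (h : ∀ s : ℕ, (201600 : ℤ) ∣ Fp (m * s) * W) :
    (if 64 ∣ m then (1 : ℤ) else if 32 ∣ m then 2 else if 16 ∣ m then 4 else if 8 ∣ m then 8
      else if 2 ∣ m then 16 else 128) ∣ W := by
  have h' : ∀ s : ℕ, (2 : ℤ) ^ 7 ∣ Fp (m * s) * W := fun s => Dvd.dvd.trans (by norm_num) (h s)
  -- general even part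
  have gen : ∀ e f : ℕ, e + 1 + f = 7 → 2 ≤ e → (∃ k : ℕ, m = 2 ^ e * (2 * k + 1)) → (2 : ℤ) ^ f ∣ W := by
    intro e f hef he hk
    obtain ⟨k, hk⟩ := hk
    refine pow_two_aux (e := e + 1) (A := Fp (m * (1 : ℕ))) ?_ (by rw [hef]; exact h' 1)
    obtain ⟨g, rfl⟩ : ∃ g, e = g + 2 := ⟨e - 2, by omega⟩
    subst hk
    unfold Fp
    push_cast
    set q : ℤ := 2 * (k : ℤ) + 1 with hq
    set p : ℤ := 2 ^ g with hp
    have hpe : (2 : ℤ) ^ (g + 2) = 4 * p := by rw [hp]; ring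
    have hpe3 : (2 : ℤ) ^ (g + 2 + 1) = 8 * p := by rw [hp]; ring
    rw [hpe, hpe3]
    -- Fp (4 p q) = 8 p q (320 p^3q^3 - 560 p^2 q^2 + 294 p q - 45)
    refine ⟨(q * (320 * p ^ 3 * q ^ 3 - 560 * p ^ 2 * q ^ 2 + 294 * p * q - 45) - 1) / 2, ?_⟩
    have hodd : 2 * ((q * (320 * p ^ 3 * q ^ 3 - 560 * p ^ 2 * q ^ 2 + 294 * p * q - 45) - 1) / 2)
        = q * (320 * p ^ 3 * q ^ 3 - 560 * p ^ 2 * q ^ 2 + 294 * p * q - 45) - 1 := by
      apply Int.mul_ediv_cancel'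
      refine ⟨k * (320 * p ^ 3 * q ^ 3 - 560 * p ^ 2 * q ^ 2 + 294 * p * q - 45)
        + (160 * p ^ 3 * q ^ 3 - 280 * p ^ 2 * q ^ 2 + 147 * p * q - 23), ?_⟩
      rw [hq]; ring
    rw [hodd]; ring
  split_ifs with c64 c32 c16 c8 c2
  · exact one_dvd _
  · have := gen 5 1 (by norm_num) (by norm_num) ⟨m / 64, by omega⟩
    simpa using this
  · have := gen 4 2 (by norm_num) (by norm_num) ⟨m / 32, by omega⟩
    simpa using this
  · have := gen 3 3 (by norm_num) (by norm_num) ⟨m / 16, by omega⟩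
    simpa using this
  · by_cases c4 : 4 ∣ m
    · have := gen 2 4 (by norm_num) (by norm_num) ⟨m / 8, by omega⟩
      simpa using this
    · -- m = 2 mod 4
      have h0 : ((m : ℤ) : ZMod 16) = 2 ∨ ((m : ℤ) : ZMod 16) = 6 ∨ ((m : ℤ) : ZMod 16) = 10
          ∨ ((m : ℤ) : ZMod 16) = 14 := by
        have : m % 16 = 2 ∨ m % 16 = 6 ∨ m % 16 = 10 ∨ m % 16 = 14 := by omega
        have hc : ((m : ℤ) : ZMod 16) = ((m % 16 : ℕ) : ZMod 16) := by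
          push_cast
          exact (ZMod.natCast_mod m 16).symm
        rw [hc]
        rcases this with h | h | h | h <;> rw [h] <;> decide
      have h3 : ((Fp (m * (1 : ℕ)) : ℤ) : ZMod 16) = 8 ∨ ((Fp (m * (3 : ℕ)) : ℤ) : ZMod 16) = 8 := by
        unfold Fp
        push_cast at h0 ⊢
        generalize (m : ZMod 16) = x at h0 ⊢
        revert x
        decide +kernel
      have fin : ∀ s : ℕ, ((Fp (m * s) : ℤ) : ZMod 16) = 8 → (16 : ℤ) ∣ W := by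
        intro s hs
        have h4 : (((Fp (m * s) - 8 : ℤ)) : ZMod 16) = 0 := by
          push_cast at hs ⊢
          rw [hs]; ring
        obtain ⟨k, hk⟩ := dvd_of_zmod 16 _ h4
        have := pow_two_aux (e := 3) (f := 4) (A := Fp (m * s)) ⟨k, by push_cast at hk; omega⟩ (h' s)
        simpa using this
      rcases h3 with h3 | h3
      · exact fin 1 h3
      · exact fin 3 h3
  · have hnd : ∃ k : ℤ, Fp (m * (1 : ℕ)) = 2 ^ 0 * (2 * k + 1) := by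
      have h3 : ¬ (2 : ℤ) ∣ Fp (m * (1 : ℕ)) := by
        intro h3
        have h4 : ((Fp (m * (1 : ℕ)) : ℤ) : ZMod 2) = 0 :=
          (ZMod.intCast_zmod_eq_zero_iff_dvd _ 2).mpr h3
        have h5 := cast_ne 2 c2
        unfold Fp at h4
        push_cast at h4 h5
        generalize (m : ZMod 2) = x at h4 h5
        revert x
        decide +kernel
      exact ⟨Fp (m * (1 : ℕ)) / 2, by omega⟩
    have := pow_two_aux (e := 0) (f := 7) hnd (by simpa using h' 1)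
    simpa using this

theorem D_dvd {m : ℕ} {W : ℤ} (h : ∀ s : ℕ, (201600 : ℤ) ∣ Fp (m * s) * W)
    (h9 : (9 : ℤ) ∣ ((m * (1 : ℕ)) * (m * (1 : ℕ) - 1) * (m * (1 : ℕ) - 2)) * W) : D m ∣ W := by
  unfold D
  have a2 := part2 h
  have a7 : (if 7 ∣ m then (1 : ℤ) else 7) ∣ W := by
    split_ifs with c
    · exact one_dvd _
    · exact part7 h c
  have a5 : (if 5 ∣ m then (1 : ℤ) else 25) ∣ W := by
    split_ifs with c
    · exact one_dvd _
    · exact part5 h c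
  have a3 : (if 9 ∣ m then (1 : ℤ) else if 3 ∣ m then 3 else 9) ∣ W := by
    split_ifs with c c'
    · exact one_dvd _
    · exact part9 h9 c c'
    · exact part3 h c'
  have c75 : IsCoprime (if 7 ∣ m then (1 : ℤ) else 7) (if 5 ∣ m then (1 : ℤ) else 25) := by
    split_ifs <;> norm_num
  have c753 : IsCoprime ((if 7 ∣ m then (1 : ℤ) else 7) * (if 5 ∣ m then (1 : ℤ) else 25))
      (if 9 ∣ m then (1 : ℤ) else if 3 ∣ m then 3 else 9) := by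
    split_ifs <;> norm_num
  have c7532 : IsCoprime ((if 7 ∣ m then (1 : ℤ) else 7) * (if 5 ∣ m then (1 : ℤ) else 25) *
      (if 9 ∣ m then (1 : ℤ) else if 3 ∣ m then 3 else 9))
      (if 64 ∣ m then (1 : ℤ) else if 32 ∣ m then 2 else if 16 ∣ m then 4 else if 8 ∣ m then 8
      else if 2 ∣ m then 16 else 128) := by
    split_ifs <;> norm_num
  exact c7532.mul_dvd (c753.mul_dvd (c75.mul_dvd a7 a5) a3) a2

end Pool.Agent.Q10.E8
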