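import Pool.Agent.Q10.E8.ChkV

set_option autoImplicit false

namespace Pool.Agent.Q10.E8

/-- The linear form of a positive root. -/
def lf (r c : Fin 8 → ℤ) : ℤ := ∑ j, r j * c j

/-- Sum of the eighth powers over the positive roots. -/
def S8 (c : Fin 8 → ℤ) : ℤ := (LV.map fun v => lf v.f c ^ 8).sum

theorem qf_gram (c : Fin 8 → ℤ) : ∑ i, ∑ j, G i j * (c i * c j) = 2 * qf c := by
  simp only [Fin.sum_univ_eight]
  simp [G]
  unfold qf
  ring

theorem qf_add (b d : Fin 8 → ℤ) :
    qf (fun j => b j + 2 * d j) = qf b + 2 * (∑ i, ∑ j, G i j * (b i * d j) + 2 * qf d) := by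
  simp only [Fin.sum_univ_eight]
  simp [G]
  unfold qf
  ring

theorem qf_two (d : Fin 8 → ℤ) : qf (fun j => 2 * d j) = 4 * qf d := by
  unfold qf
  ring

theorem lf_two (r d : Fin 8 → ℤ) : lf r (fun j => 2 * d j) = 2 * lf r d := by
  unfold lf
  rw [Finset.mul_sum]
  exact Finset.sum_congr rfl fun i _ => by ring

/-- Boolean as integer -/
def bz (b : Bool) : ℤ := if b then 1 else 0

theorem exists_bool (z : ℤ) : ∃ b : Bool, ∃ d : ℤ, z = bz b + 2 * d := by
  rcases Int.emod_two_eq_zero_or_one z with h | h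
  · exact ⟨false, z / 2, by simp [bz]; omega⟩
  · exact ⟨true, z / 2, by simp [bz]; omega⟩

/-- 0-1 vector of Booleans. -/
def bvec (b : Fin 8 → Bool) : Fin 8 → ℤ := fun j => bz (b j)

theorem exists_class (c : Fin 8 → ℤ) :
    ∃ (b : Fin 8 → Bool) (d : Fin 8 → ℤ), c = fun j => bvec b j + 2 * d j := by
  choose b d h using fun j => exists_bool (c j)
  exact ⟨b, d, funext h⟩

theorem pb_iff (z : ℤ) : pb z = decide (z % 2 = 1) := by
  cases z with
  | ofNat n =>
    simp only [pb]
    rw [Bool.eq_iff_iff]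
    simp
    omega
  | negSucc n =>
    simp only [pb]
    rw [Bool.eq_iff_iff]
    simp
    omega

theorem par_mul (b : Bool) (z : ℤ) : (b && pb z) = decide ((z * bz b) % 2 = 1) := by
  rw [pb_iff]
  cases b <;> simp [bz]

theorem par_add (x y : ℤ) : xor (decide (x % 2 = 1)) (decide (y % 2 = 1)) = decide ((x + y) % 2 = 1) := by
  rcases Int.emod_two_eq_zero_or_one x with h | h <;>
  rcases Int.emod_two_eq_zero_or_one y with h' | h' <;>
  simp [h, h', Int.add_emod]

theorem par_sq (b : Bool) : b = decide ((bz b ^ 2) % 2 = 1) := by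
  cases b <;> simp [bz]

theorem par_bb (b c : Bool) : (b && c) = decide ((bz b * bz c) % 2 = 1) := by
  cases b <;> cases c <;> simp [bz]

theorem ob_iff (b : Fin 8 → Bool) (d : Fin 8 → ℤ) (v : V8) :
    ob (b 0) (b 1) (b 2) (b 3) (b 4) (b 5) (b 6) (b 7) v
      = decide (lf v.f (fun j => bvec b j + 2 * d j) % 2 = 1) := by
  unfold ob
  simp only [par_mul, par_add]
  have e : lf v.f (fun j => bvec b j + 2 * d j)
      = (v.a0 * bz (b 0) + v.a1 * bz (b 1) + (v.a2 * bz (b 2) + v.a3 * bz (b 3))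
        + (v.a4 * bz (b 4) + v.a5 * bz (b 5) + (v.a6 * bz (b 6) + v.a7 * bz (b 7))))
        + 2 * (v.a0 * d 0 + v.a1 * d 1 + v.a2 * d 2 + v.a3 * d 3 + v.a4 * d 4 + v.a5 * d 5
          + v.a6 * d 6 + v.a7 * d 7) := by
    unfold lf V8.f bvec
    simp only [Fin.sum_univ_eight]
    simp
    ring
  rw [e]
  congr 1
  rw [Int.add_mul_emod_self_left]

theorem qpar_iff (b : Fin 8 → Bool) (d : Fin 8 → ℤ) :
    qpar (b 0) (b 1) (b 2) (b 3) (b 4) (b 5) (b 6) (b 7)
      = decide (qf (fun j => bvec b j + 2 * d j) % 2 = 1) := by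
  rw [qf_add, Int.add_mul_emod_self_left]
  unfold qf bvec
  generalize b 0 = b0
  generalize b 1 = b1
  generalize b 2 = b2
  generalize b 3 = b3
  generalize b 4 = b4
  generalize b 5 = b5
  generalize b 6 = b6
  generalize b 7 = b7
  revert b0 b1 b2 b3 b4 b5 b6 b7
  decide +kernel

theorem sum_split {α : Type} (l : List α) (p : α → Bool) (f : α → ℤ) :
    (l.map f).sum = ((l.filter p).map f).sum + ((l.filter (fun a => !p a)).map f).sum := by
  induction l with
  | nil => simp
  | cons a l ih =>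
    by_cases h : p a = true
    · simp only [List.map_cons, List.sum_cons, List.filter_cons, h, if_true, Bool.not_true,
        Bool.false_eq_true, if_false, ih]
      ring
    · simp only [Bool.not_eq_true] at h
      simp only [List.map_cons, List.sum_cons, List.filter_cons, h, if_true, Bool.not_false,
        Bool.false_eq_true, if_false, ih]
      ring

theorem sum_lin {α : Type} (l : List α) (f g : α → ℤ) :
    (l.map fun a => f a - (20 * g a - 19)).sum
      = (l.map f).sum - 20 * (l.map g).sum + 19 * (l.length : ℤ) := by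
  induction l with
  | nil => simp
  | cons a l ih =>
    simp only [List.map_cons, List.sum_cons, ih, List.length_cons]
    push_cast
    ring

theorem sum_one {α : Type} (l : List α) (f : α → ℤ) :
    (l.map fun a => f a - 1).sum = (l.map f).sum - (l.length : ℤ) := by
  induction l with
  | nil => simp
  | cons a l ih =>
    simp only [List.map_cons, List.sum_cons, ih, List.length_cons]
    push_cast
    ring

theorem dvd_sum_map {α : Type} (N : ℤ) (l : List α) (f : α → ℤ) (h : ∀ a ∈ l, N ∣ f a) :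
    N ∣ (l.map f).sum := by
  refine List.dvd_sum ?_
  intro x hx
  obtain ⟨a, ha, rfl⟩ := List.mem_map.mp hx
  exact h a ha

theorem lf_sq_sum (F : List V8) (c : Fin 8 → ℤ) :
    (F.map fun v => lf v.f c ^ 2).sum
      = ∑ i, ∑ j, (F.map fun v => v.f i * v.f j).sum * (c i * c j) := by
  induction F with
  | nil => simp
  | cons r F ih =>
    simp only [List.map_cons, List.sum_cons, add_mul, Finset.sum_add_distrib, ih]
    congr 1
    unfold lf
    rw [sq, Finset.sum_mul_sum]
    exact Finset.sum_congr rfl fun i _ => Finset.sum_congr rfl fun j _ => by ring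

theorem G_symm : ∀ i j : Fin 8, G i j = G j i := by
  decide +kernel

theorem mchk_spec (F : List V8) (h : mchk F = true) (i j : Fin 8) :
    (F.map fun v => v.f i * v.f j).sum = 16 * G i j := by
  unfold mchk at h
  simp only [Bool.and_eq_true, beq_iff_eq] at h
  unfold sm at h
  have key : ∀ i j : Fin 8, i ≤ j → (F.map fun v => v.f i * v.f j).sum = 16 * G i j := by
    intro i j hij
    fin_cases i <;> fin_cases j <;> first
      | (exfalso; revert hij; decide)
      | (simp [G, V8.f]; tauto)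
  rcases le_total i j with hij | hij
  · exact key i j hij
  · have e : (F.map fun v => v.f i * v.f j) = (F.map fun v => v.f j * v.f i) := by
      refine List.map_congr_left fun v _ => by ring
    rw [e, key j i hij, G_symm]

theorem odd8 (a : ℤ) (h : a % 2 = 1) : (256 : ℤ) ∣ a ^ 8 - (20 * a ^ 2 - 19) := by
  obtain ⟨t, ht⟩ : ∃ t, a = 2 * t + 1 := ⟨a / 2, by omega⟩
  obtain ⟨s, hs⟩ : ∃ s, t * (t + 1) = 2 * s := by
    rcases Int.even_mul_succ_self t with ⟨s, hs⟩
    exact ⟨s, by rw [hs]; ring⟩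
  -- a ^ 2 = 1 + 8 s
  have h2 : a ^ 2 = 1 + 8 * s := by rw [ht]; linear_combination 4 * hs
  obtain ⟨u, hu⟩ : ∃ u, s * (s + 1) = 2 * u := by
    rcases Int.even_mul_succ_self s with ⟨u, hu⟩
    exact ⟨u, by rw [hu]; ring⟩
  have h8 : a ^ 8 = (a ^ 2) ^ 4 := by ring
  rw [h8, h2]
  exact ⟨u + s ^ 2 - s + 8 * s ^ 3 + 16 * s ^ 4, by linear_combination 128 * hu⟩

theorem odd8' (a : ℤ) (h : a % 2 = 1) : (32 : ℤ) ∣ a ^ 8 - 1 := by
  obtain ⟨t, ht⟩ : ∃ t, a = 2 * t + 1 := ⟨a / 2, by omega⟩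
  obtain ⟨s, hs⟩ : ∃ s, t * (t + 1) = 2 * s := by
    rcases Int.even_mul_succ_self t with ⟨s, hs⟩
    exact ⟨s, by rw [hs]; ring⟩
  have h2 : a ^ 2 = 1 + 8 * s := by rw [ht]; linear_combination 4 * hs
  have h8 : a ^ 8 = (a ^ 2) ^ 4 := by ring
  rw [h8, h2]
  exact ⟨s + 12 * s ^ 2 + 64 * s ^ 3 + 128 * s ^ 4, by ring⟩

theorem even8 (a : ℤ) (h : a % 2 = 0) : (256 : ℤ) ∣ a ^ 8 := by
  obtain ⟨t, ht⟩ : ∃ t, a = 2 * t := ⟨a / 2, by omega⟩
  exact ⟨t ^ 8, by rw [ht]; ring⟩

theorem ob_true {b : Fin 8 → Bool} {d : Fin 8 → ℤ} {v : V8}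
    (h : ob (b 0) (b 1) (b 2) (b 3) (b 4) (b 5) (b 6) (b 7) v = true) :
    lf v.f (fun j => bvec b j + 2 * d j) % 2 = 1 := by
  rw [ob_iff b d] at h
  exact of_decide_eq_true h

theorem ob_false {b : Fin 8 → Bool} {d : Fin 8 → ℤ} {v : V8}
    (h : (!ob (b 0) (b 1) (b 2) (b 3) (b 4) (b 5) (b 6) (b 7) v) = true) :
    lf v.f (fun j => bvec b j + 2 * d j) % 2 = 0 := by
  rw [ob_iff b d] at h
  have h' : ¬ (lf v.f (fun j => bvec b j + 2 * d j) % 2 = 1) := by
    intro h1
    rw [h1] at h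
    simp at h
  omega

theorem any_ne {b : Fin 8 → Bool} (h : b ≠ fun _ => false) :
    (b 0 || b 1 || b 2 || b 3 || b 4 || b 5 || b 6 || b 7) = true := by
  by_contra hc
  apply h
  funext j
  simp only [Bool.not_eq_true, Bool.or_eq_false_iff] at hc
  fin_cases j <;> simp <;> tauto

theorem S8_odd (c : Fin 8 → ℤ) (hq : qf c % 2 = 1) : (32 : ℤ) ∣ S8 c - 56 := by
  obtain ⟨b, d, rfl⟩ := exists_class c
  have hb : b ≠ fun _ => false := by
    rintro rfl
    rw [qf_add] at hq
    have : qf (bvec fun _ => false) = 0 := by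
      simp [qf, bvec, bz]
    rw [this] at hq
    omega
  have hcnt := cnt8 (b 0) (b 1) (b 2) (b 3) (b 4) (b 5) (b 6) (b 7) (any_ne hb)
  rw [qpar_iff b d, hq] at hcnt
  simp only [decide_true, cond_true, beq_iff_eq] at hcnt
  unfold S8
  rw [sum_split LV (ob (b 0) (b 1) (b 2) (b 3) (b 4) (b 5) (b 6) (b 7))]
  have h1 := dvd_sum_map 32 (LV.filter (ob (b 0) (b 1) (b 2) (b 3) (b 4) (b 5) (b 6) (b 7)))
    (fun v => lf v.f (fun j => bvec b j + 2 * d j) ^ 8 - 1)
    (fun v hv => odd8' _ (ob_true (List.mem_filter.mp hv).2))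
  have h2 := dvd_sum_map 32 (LV.filter
    (fun v => !ob (b 0) (b 1) (b 2) (b 3) (b 4) (b 5) (b 6) (b 7) v))
    (fun v => lf v.f (fun j => bvec b j + 2 * d j) ^ 8)
    (fun v hv => dvd_trans (by norm_num) (even8 _ (ob_false (List.mem_filter.mp hv).2)))
  rw [sum_one, hcnt] at h1
  obtain ⟨x, hx⟩ := h1
  obtain ⟨y, hy⟩ := h2
  push_cast at hx
  exact ⟨x + y, by linear_combination hx + hy⟩

theorem S8_even (c : Fin 8 → ℤ) (hq : qf c % 2 = 0) (hc : ¬ ∀ j, 2 ∣ c j) :
    (256 : ℤ) ∣ S8 c - 64 := by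
  obtain ⟨b, d, rfl⟩ := exists_class c
  have hb : b ≠ fun _ => false := by
    rintro rfl
    apply hc
    intro j
    simp [bvec, bz]
  have hany := any_ne hb
  have hcnt := cnt8 (b 0) (b 1) (b 2) (b 3) (b 4) (b 5) (b 6) (b 7) hany
  have hqp := qpar_iff b d
  rw [hq] at hqp
  have hqp' : qpar (b 0) (b 1) (b 2) (b 3) (b 4) (b 5) (b 6) (b 7) = false := by
    rw [hqp]; decide
  have hquad := mchk_spec _ (quad8 (b 0) (b 1) (b 2) (b 3) (b 4) (b 5) (b 6) (b 7) hany hqp')
  rw [hqp'] at hcnt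
  simp only [cond_false, beq_iff_eq] at hcnt
  have hsq := lf_sq_sum (LV.filter (ob (b 0) (b 1) (b 2) (b 3) (b 4) (b 5) (b 6) (b 7)))
    (fun j => bvec b j + 2 * d j)
  have hsq2 : ((LV.filter (ob (b 0) (b 1) (b 2) (b 3) (b 4) (b 5) (b 6) (b 7))).map
      fun v => lf v.f (fun j => bvec b j + 2 * d j) ^ 2).sum
      = 32 * qf (fun j => bvec b j + 2 * d j) := by
    rw [hsq]
    have : (32 : ℤ) * qf (fun j => bvec b j + 2 * d j)
        = 16 * (2 * qf (fun j => bvec b j + 2 * d j)) := by ring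
    rw [this, ← qf_gram, Finset.mul_sum]
    refine Finset.sum_congr rfl fun i _ => ?_
    rw [Finset.mul_sum]
    refine Finset.sum_congr rfl fun j _ => ?_
    rw [hquad i j]
    ring
  unfold S8
  rw [sum_split LV (ob (b 0) (b 1) (b 2) (b 3) (b 4) (b 5) (b 6) (b 7))]
  have h1 := dvd_sum_map 256 (LV.filter (ob (b 0) (b 1) (b 2) (b 3) (b 4) (b 5) (b 6) (b 7)))
    (fun v => lf v.f (fun j => bvec b j + 2 * d j) ^ 8
      - (20 * lf v.f (fun j => bvec b j + 2 * d j) ^ 2 - 19))
    (fun v hv => odd8 _ (ob_true (List.mem_filter.mp hv).2))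
  have h2 := dvd_sum_map 256 (LV.filter
    (fun v => !ob (b 0) (b 1) (b 2) (b 3) (b 4) (b 5) (b 6) (b 7) v))
    (fun v => lf v.f (fun j => bvec b j + 2 * d j) ^ 8)
    (fun v hv => even8 _ (ob_false (List.mem_filter.mp hv).2))
  rw [sum_lin (f := fun v => lf v.f (fun j => bvec b j + 2 * d j) ^ 8)
    (g := fun v : V8 => lf v.f (fun j => bvec b j + 2 * d j) ^ 2), hcnt, hsq2] at h1
  obtain ⟨k, hk⟩ : ∃ k, qf (fun j => bvec b j + 2 * d j) = 2 * k :=
    ⟨qf (fun j => bvec b j + 2 * d j) / 2, by omega⟩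
  rw [hk] at h1
  obtain ⟨x, hx⟩ := h1
  obtain ⟨y, hy⟩ := h2
  refine ⟨x + y + 5 * k - 5, ?_⟩
  push_cast at hx
  linear_combination hx + hy

/-- The degree 8 invariant. -/
def h8 (c : Fin 8 → ℤ) : ℤ := S8 c - 240 * qf c ^ 4

theorem h8_odd (c : Fin 8 → ℤ) (hq : qf c % 2 = 1) : h8 c % 32 = 8 := by
  obtain ⟨x, hx⟩ := S8_odd c hq
  obtain ⟨k, hk⟩ : ∃ k, qf c = 2 * k + 1 := ⟨qf c / 2, by omega⟩
  unfold h8
  have : S8 c - 240 * qf c ^ 4
      = 8 + 32 * (x - 6 - 15 * (8 * k ^ 4 + 16 * k ^ 3 + 12 * k ^ 2 + 4 * k)) := by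
    rw [hk]
    linear_combination hx
  rw [this]
  omega

theorem h8_even (c : Fin 8 → ℤ) (hq : qf c % 2 = 0) (hc : ¬ ∀ j, 2 ∣ c j) :
    h8 c % 256 = 64 := by
  obtain ⟨x, hx⟩ := S8_even c hq hc
  obtain ⟨k, hk⟩ : ∃ k, qf c = 2 * k := ⟨qf c / 2, by omega⟩
  unfold h8
  have : S8 c - 240 * qf c ^ 4 = 64 + 256 * (x - 15 * k ^ 4) := by
    rw [hk]
    linear_combination hx
  rw [this]
  omega

theorem S8_two (d : Fin 8 → ℤ) : S8 (fun j => 2 * d j) = 256 * S8 d := by
  unfold S8
  rw [← List.sum_map_mul_left]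
  congr 1
  refine List.map_congr_left fun v _ => ?_
  rw [lf_two]
  ring

theorem h8_two (d : Fin 8 → ℤ) : h8 (fun j => 2 * d j) = 256 * h8 d := by
  unfold h8
  rw [S8_two, qf_two]
  ring

theorem h8_ne (c : Fin 8 → ℤ) (hc : c ≠ 0) : h8 c ≠ 0 := by
  have key : ∀ N : ℕ, ∀ c : Fin 8 → ℤ, c ≠ 0 → ∑ j, (c j).natAbs ≤ N → h8 c ≠ 0 := by
    intro N
    induction N with
    | zero =>
      intro c hc hN
      exfalso
      apply hc
      have := Finset.sum_eq_zero_iff.mp (Nat.le_zero.mp hN)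
      funext j
      simpa using this j (Finset.mem_univ j)
    | succ N ih =>
      intro c hc hN
      rcases Int.emod_two_eq_zero_or_one (qf c) with hq | hq
      · by_cases h2 : ∀ j, 2 ∣ c j
        · choose d hd using h2
          have e : c = fun j => 2 * d j := funext hd
          have hd0 : d ≠ 0 := by
            rintro rfl
            apply hc
            rw [e]
            funext j
            simp
          have hsum : ∑ j, (c j).natAbs = 2 * ∑ j, (d j).natAbs := by
            rw [e, Finset.mul_sum]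
            exact Finset.sum_congr rfl fun j _ => by rw [Int.natAbs_mul]; rfl
          have hpos : 0 < ∑ j, (d j).natAbs := by
            rcases Nat.eq_zero_or_pos (∑ j, (d j).natAbs) with h0 | h0
            · exfalso
              apply hd0
              have := Finset.sum_eq_zero_iff.mp h0
              funext j
              simpa using this j (Finset.mem_univ j)
            · exact h0
          have := ih d hd0 (by omega)
          rw [e, h8_two]
          exact mul_ne_zero (by norm_num) this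
        · have := h8_even c hq h2
          intro h0
          rw [h0] at this
          norm_num at this
      · have := h8_odd c hq
        intro h0
        rw [h0] at this
        norm_num at this
  exact key _ c hc le_rfl

end Pool.Agent.Q10.E8
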