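import Pool.Agent.Q10.E8.Div

set_option autoImplicit false

namespace Pool.Agent.Q10.E8

/-- `Y` (in doubled coordinates) is a spherical `t`-design on the sphere of squared radius `2m`. -/
def IsDesign (t m : ℕ) (Y : Finset (Fin 8 → ℤ)) : Prop :=
  Y.Nonempty ∧ Cubature t m Y (fun _ => 1)

theorem weighted (m : ℕ) (Y : Finset (Fin 8 → ℤ)) (w : (Fin 8 → ℤ) → ℤ)
    (hY : ∀ v ∈ Y, InShell m v) (h : Cubature 8 m Y (fun v => (w v : ℝ))) :
    D m ∣ ∑ v ∈ Y, w v :=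
  D_dvd (fun s => (div_main h le_rfl (fun v hv => (hY v hv).1) s).1)
    (div_main h le_rfl (fun v hv => (hY v hv).1) 1).2

theorem D_coprime (m : ℕ) (hm : Nat.Coprime m 210) : D m = 201600 := by
  have cop : ∀ p : ℕ, p.Prime → p ∣ 210 → ¬ p ∣ m := by
    intro p hp h1 h2
    have := Nat.dvd_gcd h2 h1
    rw [hm] at this
    exact hp.one_lt.ne' (Nat.dvd_one.mp this)
  have a7 := cop 7 (by norm_num) (by norm_num)
  have a5 := cop 5 (by norm_num) (by norm_num)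
  have a3 := cop 3 (by norm_num) (by norm_num)
  have a2 := cop 2 (by norm_num) (by norm_num)
  have a9 : ¬ 9 ∣ m := fun h => a3 (Dvd.dvd.trans (by norm_num) h)
  have b8 : ¬ 8 ∣ m := fun h => a2 (Dvd.dvd.trans (by norm_num) h)
  have b16 : ¬ 16 ∣ m := fun h => a2 (Dvd.dvd.trans (by norm_num) h)
  have b32 : ¬ 32 ∣ m := fun h => a2 (Dvd.dvd.trans (by norm_num) h)
  have b64 : ¬ 64 ∣ m := fun h => a2 (Dvd.dvd.trans (by norm_num) h)
  unfold D
  simp [a7, a5, a3, a9, a2, b8, b16, b32, b64]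

theorem mainA :
    (∀ (m : ℕ) (Y : Finset (Fin 8 → ℤ)) (w : (Fin 8 → ℤ) → ℤ), (∀ v ∈ Y, InShell m v) →
      Cubature 8 m Y (fun v => (w v : ℝ)) → D m ∣ ∑ v ∈ Y, w v) ∧
    (∀ (m : ℕ) (Y : Finset (Fin 8 → ℤ)), (∀ v ∈ Y, InShell m v) → IsDesign 8 m Y →
      D m ∣ (Y.card : ℤ)) ∧
    (∀ (m : ℕ) (Y : Finset (Fin 8 → ℤ)), Nat.Coprime m 210 → (∀ v ∈ Y, InShell m v) →
      IsDesign 8 m Y → 201600 ∣ Y.card) := by
  have h1 : ∀ (m : ℕ) (Y : Finset (Fin 8 → ℤ)), (∀ v ∈ Y, InShell m v) → IsDesign 8 m Y →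
      D m ∣ (Y.card : ℤ) := by
    intro m Y hY hd
    have h := weighted m Y (fun _ => 1) hY (by simpa using hd.2)
    simpa using h
  refine ⟨weighted, h1, ?_⟩
  intro m Y hm hY hd
  have h := h1 m Y hY hd
  rw [D_coprime m hm] at h
  exact_mod_cast h

end Pool.Agent.Q10.E8
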