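import Pool.Agent.Q10.E8.Orb

set_option autoImplicit false

namespace Pool.Agent.Q10.E8

/-- `g` is an automorphism of the lattice `E_8` (in doubled coordinates). -/
def IsAut (g : (Fin 8 → ℤ) → (Fin 8 → ℤ)) : Prop :=
  Set.BijOn g {v | IsE8 v} {v | IsE8 v} ∧
    ∀ u v, IsE8 u → IsE8 v → ∑ i, g u i * g v i = ∑ i, u i * v i

theorem aut_shell {g : (Fin 8 → ℤ) → (Fin 8 → ℤ)} (hg : IsAut g) {m : ℕ} {v : Fin 8 → ℤ}
    (hv : IsE8 v) : InShell m (g v) ↔ InShell m v := by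
  have h := hg.2 v v hv hv
  simp only [← sq] at h
  unfold InShell
  rw [h]
  constructor
  · exact fun h' => ⟨hv, h'.2⟩
  · exact fun h' => ⟨hg.1.mapsTo hv, h'.2⟩

theorem rootSum_aut {g : (Fin 8 → ℤ) → (Fin 8 → ℤ)} (hg : IsAut g) {v : Fin 8 → ℤ}
    (hv : IsE8 v) : rootSum (g v) = rootSum v := by
  unfold rootSum
  symm
  refine Finset.sum_nbij g ?_ ?_ ?_ ?_
  · intro r hr
    rw [mem_shell] at hr ⊢
    exact (aut_shell hg hr.1).mpr hr
  · intro a ha b hb hab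
    rw [Finset.mem_coe, mem_shell] at ha hb
    exact hg.1.injOn ha.1 hb.1 hab
  · intro r hr
    rw [Finset.mem_coe, mem_shell] at hr
    obtain ⟨s, hs, rfl⟩ := hg.1.surjOn hr.1
    refine ⟨s, ?_, rfl⟩
    rw [Finset.mem_coe, mem_shell]
    exact (aut_shell hg hs).mp hr
  · intro r hr
    rw [mem_shell] at hr
    unfold pr
    rw [hg.2 v r hv hr.1]

theorem qf_of {m : ℕ} {c : Fin 8 → ℤ} (h : InShell m (vec c)) : qf c = m := by
  have h1 := vec_norm c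
  have h2 := h.2
  omega

theorem inv_odd {m : ℕ} {v : Fin 8 → ℤ} (hv : InShell m v) (hm : m % 2 = 1) :
    (rootSum v - 480 * (m : ℤ) ^ 4) % 64 = 16 := by
  obtain ⟨c, rfl⟩ := vec_surj v hv.1
  have hq := qf_of hv
  have h := h8_odd c (by omega)
  rw [rootSum_vec]
  unfold h8 at h
  rw [hq] at h
  omega

theorem vec_two (d : Fin 8 → ℤ) : vec (fun j => 2 * d j) = fun i => 2 * vec d i := by
  funext i
  unfold vec
  rw [Finset.mul_sum]
  exact Finset.sum_congr rfl fun j _ => by ring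

theorem inv_even {m : ℕ} {v : Fin 8 → ℤ} (hv : InShell m v) (hm : m % 2 = 0)
    (h2 : ¬ ∃ u, IsE8 u ∧ v = fun i => 2 * u i) :
    (rootSum v - 480 * (m : ℤ) ^ 4) % 512 = 128 := by
  obtain ⟨c, rfl⟩ := vec_surj v hv.1
  have hq := qf_of hv
  have h := h8_even c (by omega) (by
    intro hd
    choose d hd using hd
    apply h2
    refine ⟨vec d, vec_isE8 d, ?_⟩
    rw [← vec_two]
    congr 1
    exact funext hd)
  rw [rootSum_vec]
  unfold h8 at h
  rw [hq] at h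
  omega

theorem inv_ne {m : ℕ} (hm : 0 < m) {v : Fin 8 → ℤ} (hv : InShell m v) :
    rootSum v ≠ 480 * (m : ℤ) ^ 4 := by
  obtain ⟨c, rfl⟩ := vec_surj v hv.1
  have hq := qf_of hv
  have hc : c ≠ 0 := by
    rintro rfl
    have : qf 0 = 0 := by simp [qf]
    omega
  have h := h8_ne c hc
  unfold h8 at h
  rw [rootSum_vec]
  rw [hq] at h
  intro h'
  apply h
  omega

theorem card_roots : (shell 1).card = 240 := by
  rw [shell_one, List.toFinset_card_of_nodup nodup_roots, List.length_map]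
  rfl

theorem cub_sum {m : ℕ} {Y : Finset (Fin 8 → ℤ)} {w : (Fin 8 → ℤ) → ℝ}
    (hY : ∀ v ∈ Y, InShell m v) (h : Cubature 8 m Y w) :
    ∑ v ∈ Y, w v * ((rootSum v : ℝ) - 480 * (m : ℝ) ^ 4) = 0 := by
  have h1 : ∀ r ∈ shell 1, ∑ v ∈ Y, w v * (pr v r : ℝ) ^ 8
      = (∑ v ∈ Y, w v) * (2 * (m : ℝ) ^ 4) := by
    intro r hr
    rw [mem_shell] at hr
    have := (moments_int h le_rfl (fun v hv => (hY v hv).1) r hr.1 1 hr.2).2.2.2
    rw [this]
    push_cast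
    ring
  have h2 : ∑ v ∈ Y, w v * (rootSum v : ℝ) = ∑ r ∈ shell 1, ∑ v ∈ Y, w v * (pr v r : ℝ) ^ 8 := by
    rw [Finset.sum_comm]
    refine Finset.sum_congr rfl fun v _ => ?_
    unfold rootSum
    push_cast
    rw [Finset.mul_sum]
  rw [Finset.sum_congr rfl h1, Finset.sum_const, card_roots] at h2
  simp only [mul_sub, Finset.sum_sub_distrib, h2]
  rw [← Finset.sum_mul]
  simp
  ring

theorem no_orbit {m : ℕ} (hm : 0 < m) {y : Fin 8 → ℤ} (hy : InShell m y)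
    {Y : Finset (Fin 8 → ℤ)} {w : (Fin 8 → ℤ) → ℝ} (hY : ∀ v ∈ Y, ∃ g, IsAut g ∧ v = g y)
    (hw : ∑ v ∈ Y, w v ≠ 0) : ¬ Cubature 8 m Y w := by
  intro h
  have hY' : ∀ v ∈ Y, InShell m v := by
    intro v hv
    obtain ⟨g, hg, rfl⟩ := hY v hv
    exact (aut_shell hg hy.1).mpr hy
  have hr : ∀ v ∈ Y, rootSum v = rootSum y := by
    intro v hv
    obtain ⟨g, hg, rfl⟩ := hY v hv
    exact rootSum_aut hg hy.1
  have h1 := cub_sum hY' h
  have h2 : ∑ v ∈ Y, w v * ((rootSum v : ℝ) - 480 * (m : ℝ) ^ 4)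
      = (∑ v ∈ Y, w v) * ((rootSum y : ℝ) - 480 * (m : ℝ) ^ 4) := by
    rw [Finset.sum_mul]
    exact Finset.sum_congr rfl fun v hv => by rw [hr v hv]
  rw [h2] at h1
  rcases mul_eq_zero.mp h1 with h3 | h3
  · exact hw h3
  · apply inv_ne hm hy
    have : (rootSum y : ℝ) = 480 * (m : ℝ) ^ 4 := by linarith
    exact_mod_cast this

theorem rational (x : Fin 8 → ℚ) (hx : x ≠ 0) :
    ∑ r ∈ shell 1, (∑ i, x i * ((r i : ℚ) / 2)) ^ 8 ≠ 30 * (∑ i, x i ^ 2) ^ 4 := by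
  -- common denominator
  obtain ⟨D, hD, z, hz⟩ : ∃ D : ℕ, 0 < D ∧ ∃ z : Fin 8 → ℤ, ∀ i, (z i : ℚ) = D * x i := by
    refine ⟨∏ i, (x i).den, Finset.prod_pos fun i _ => (x i).den_pos, ?_⟩
    have : ∀ i, ∃ a : ℤ, (a : ℚ) = ((∏ j, (x j).den : ℕ) : ℚ) * x i := by
      intro i
      obtain ⟨k, hk⟩ := Finset.dvd_prod_of_mem (fun j => (x j).den) (Finset.mem_univ i)
      refine ⟨k * (x i).num, ?_⟩
      rw [hk]
      push_cast
      have h1 : (x i).den * x i = (x i).num := by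
        rw [mul_comm]
        exact Rat.mul_den_eq_num (x i)
      rw [← h1]
      ring
    choose z hz using this
    exact ⟨z, hz⟩
  set m : ℤ := 2 * ∑ i, z i ^ 2 with hm
  have hm0 : 0 < m := by
    have h0 : ∃ i, z i ≠ 0 := by
      by_contra hc
      push Not at hc
      apply hx
      funext i
      have h1 := hz i
      rw [hc i] at h1
      have hD' : (D : ℚ) ≠ 0 := by exact_mod_cast hD.ne'
      have : (D : ℚ) * x i = 0 := by rw [← h1]; simp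
      exact (mul_eq_zero.mp this).resolve_left hD'
    obtain ⟨i, hi⟩ := h0
    have h1 : 0 < z i ^ 2 := by positivity
    have h2 := Finset.single_le_sum (f := fun i => z i ^ 2) (fun i _ => sq_nonneg _)
      (Finset.mem_univ i)
    rw [hm]
    have h3 : z i ^ 2 ≤ ∑ i, z i ^ 2 := h2
    omega
  obtain ⟨M, hM⟩ : ∃ M : ℕ, (M : ℤ) = m := ⟨m.toNat, Int.toNat_of_nonneg hm0.le⟩
  have hMpos : 0 < M := by
    have : (0 : ℤ) < M := by rw [hM]; exact hm0
    exact_mod_cast this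
  have hv : InShell M (fun i => 4 * z i) := by
    refine ⟨⟨fun i j => by show 4 * z i % 2 = 4 * z j % 2; omega, ?_⟩, ?_⟩
    · rw [← Finset.mul_sum]
      omega
    · rw [hM, hm]
      simp only [mul_pow]
      rw [← Finset.mul_sum]
      ring
  have hne := inv_ne hMpos hv
  have hD' : (D : ℚ) ≠ 0 := by exact_mod_cast hD.ne'
  have hxz : ∀ i, x i = (z i : ℚ) / D := by
    intro i
    rw [hz i]
    field_simp
  have hpr : ∀ r : Fin 8 → ℤ, (pr (fun i => 4 * z i) r : ℤ) = ∑ i, z i * r i := by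
    intro r
    unfold pr
    have : ∑ i, 4 * z i * r i = 4 * ∑ i, z i * r i := by
      rw [Finset.mul_sum]
      exact Finset.sum_congr rfl fun i _ => by ring
    rw [this]
    exact Int.mul_ediv_cancel_left _ (by norm_num)
  have e1 : ∑ r ∈ shell 1, (∑ i, x i * ((r i : ℚ) / 2)) ^ 8
      = (rootSum (fun i => 4 * z i) : ℚ) / (2 * D) ^ 8 := by
    unfold rootSum
    push_cast
    rw [Finset.sum_div]
    refine Finset.sum_congr rfl fun r _ => ?_
    rw [hpr r, ← div_pow]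
    congr 1
    push_cast
    rw [Finset.sum_div]
    refine Finset.sum_congr rfl fun i _ => ?_
    rw [hxz i]
    field_simp
  have e2 : 30 * (∑ i, x i ^ 2) ^ 4 = (480 * (M : ℚ) ^ 4) / (2 * D) ^ 8 := by
    have h1 : ∑ i, x i ^ 2 = (∑ i, (z i : ℚ) ^ 2) / D ^ 2 := by
      rw [Finset.sum_div]
      refine Finset.sum_congr rfl fun i _ => ?_
      rw [hxz i, div_pow]
    have h2 : (M : ℚ) = 2 * ∑ i, (z i : ℚ) ^ 2 := by
      have : (M : ℚ) = (m : ℚ) := by exact_mod_cast hM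
      rw [this, hm]
      push_cast
      ring
    rw [h1, h2]
    field_simp
    ring
  rw [e1, e2]
  intro h
  have h3 : (rootSum (fun i => 4 * z i) : ℚ) = 480 * (M : ℚ) ^ 4 := by
    have hD2 : ((2 : ℚ) * D) ^ 8 ≠ 0 := by positivity
    exact (div_left_inj' hD2).mp h
  exact hne (by exact_mod_cast h3)

theorem mainB :
    (∀ x : Fin 8 → ℚ, x ≠ 0 →
      ∑ r ∈ shell 1, (∑ i, x i * ((r i : ℚ) / 2)) ^ 8 ≠ 30 * (∑ i, x i ^ 2) ^ 4) ∧
    (∀ (m : ℕ) (v : Fin 8 → ℤ), InShell m v → m % 2 = 1 →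
      (rootSum v - 480 * (m : ℤ) ^ 4) % 64 = 16) ∧
    (∀ (m : ℕ) (v : Fin 8 → ℤ), InShell m v → m % 2 = 0 →
      (¬ ∃ u, IsE8 u ∧ v = fun i => 2 * u i) →
      (rootSum v - 480 * (m : ℤ) ^ 4) % 512 = 128) ∧
    (∀ (m : ℕ) (y : Fin 8 → ℤ) (Y : Finset (Fin 8 → ℤ)) (w : (Fin 8 → ℤ) → ℝ), 0 < m →
      InShell m y → (∀ v ∈ Y, ∃ g, IsAut g ∧ v = g y) → ∑ v ∈ Y, w v ≠ 0 →
      ¬ Cubature 8 m Y w) ∧
    (∀ (m : ℕ) (y : Fin 8 → ℤ) (Y : Finset (Fin 8 → ℤ)), 0 < m →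
      InShell m y → (∀ v ∈ Y, ∃ g, IsAut g ∧ v = g y) → ¬ IsDesign 8 m Y) := by
  refine ⟨rational, fun m v hv hm => inv_odd hv hm, fun m v hv hm h2 => inv_even hv hm h2,
    fun m y Y w hm hy hY hw => no_orbit hm hy hY hw, ?_⟩
  intro m y Y hm hy hY hd
  refine no_orbit (w := fun _ => 1) hm hy hY ?_ hd.2
  have h1 : 0 < Y.card := Finset.card_pos.mpr hd.1
  simp
  exact Finset.nonempty_iff_ne_empty.mp hd.1

end Pool.Agent.Q10.E8
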