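import Pool.Agent.Q10.E8.TabV

set_option autoImplicit false

namespace Pool.Agent.Q10.E8

/-- negative -/
def V8.neg (v : V8) : V8 := ⟨-v.a0, -v.a1, -v.a2, -v.a3, -v.a4, -v.a5, -v.a6, -v.a7⟩

/-- equality test -/
def V8.eq (v w : V8) : Bool :=
  v.a0 == w.a0 && v.a1 == w.a1 && v.a2 == w.a2 && v.a3 == w.a3 && v.a4 == w.a4 && v.a5 == w.a5
    && v.a6 == w.a6 && v.a7 == w.a7

/-- The 240 roots. -/
def AllR : List V8 := LRV ++ LRV.map V8.neg

/-- sign -/
def sgn : Bool → ℤ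
  | true => .ofNat 1
  | false => .negSucc 0

/-- three values -/
inductive T3 | n | z | p

/-- value -/
def T3.val : T3 → ℤ
  | .n => .negSucc 1
  | .z => .ofNat 0
  | .p => .ofNat 2

instance (P : T3 → Prop) [∀ t, Decidable (P t)] : Decidable (∀ t, P t) :=
  decidable_of_iff (P .n ∧ P .z ∧ P .p)
    ⟨fun h t => by cases t <;> simp [h], fun h => ⟨h _, h _, h _⟩⟩

/-- sum of coordinates -/
def V8.sum (v : V8) : ℤ := v.a0 + v.a1 + v.a2 + v.a3 + v.a4 + v.a5 + v.a6 + v.a7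

/-- sum of squares -/
def V8.nsq (v : V8) : ℤ :=
  v.a0 * v.a0 + v.a1 * v.a1 + v.a2 * v.a2 + v.a3 * v.a3 + v.a4 * v.a4 + v.a5 * v.a5
    + v.a6 * v.a6 + v.a7 * v.a7

theorem enum2 : ∀ b0 b1 b2 b3 b4 b5 b6 b7 : Bool,
    (V8.sum ⟨sgn b0, sgn b1, sgn b2, sgn b3, sgn b4, sgn b5, sgn b6, sgn b7⟩ % 4 == 0) = true →
    AllR.any (V8.eq ⟨sgn b0, sgn b1, sgn b2, sgn b3, sgn b4, sgn b5, sgn b6, sgn b7⟩) = true := by
  decide +kernel

theorem enum3 : ∀ t0 t1 t2 t3 t4 t5 t6 t7 : T3,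
    (V8.nsq ⟨t0.val, t1.val, t2.val, t3.val, t4.val, t5.val, t6.val, t7.val⟩ == 8) = true →
    AllR.any (V8.eq ⟨t0.val, t1.val, t2.val, t3.val, t4.val, t5.val, t6.val, t7.val⟩) = true := by
  decide +kernel

/-- pairwise distinct -/
def pwne : List V8 → Bool
  | [] => true
  | v :: l => (!l.any (V8.eq v)) && pwne l

theorem AllR_pwne : pwne AllR = true := by
  decide +kernel

/-- same parity -/
def V8.par (v : V8) : Bool :=
  v.a0 % 2 == v.a1 % 2 && v.a0 % 2 == v.a2 % 2 && v.a0 % 2 == v.a3 % 2 && v.a0 % 2 == v.a4 % 2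
   && v.a0 % 2 == v.a5 % 2 && v.a0 % 2 == v.a6 % 2 && v.a0 % 2 == v.a7 % 2

theorem AllR_good : AllR.all (fun v => v.par && (v.sum % 4 == 0) && (v.nsq == 8)) = true := by
  decide +kernel

theorem V8.eq_iff (v w : V8) : v.eq w = true ↔ v = w := by
  unfold V8.eq
  cases v; cases w
  simp
  tauto

theorem mem_of_any {v : V8} {l : List V8} (h : l.any (V8.eq v) = true) : v ∈ l := by
  obtain ⟨w, hw, h⟩ := List.any_eq_true.mp h
  rw [(V8.eq_iff v w).mp h]
  exact hw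

theorem nodup_of_pwne : ∀ l : List V8, pwne l = true → l.Nodup
  | [], _ => List.nodup_nil
  | v :: l, h => by
    simp only [pwne, Bool.and_eq_true, Bool.not_eq_true'] at h
    refine List.nodup_cons.mpr ⟨fun hv => ?_, nodup_of_pwne l h.2⟩
    have : l.any (V8.eq v) = true := List.any_eq_true.mpr ⟨v, hv, (V8.eq_iff v v).mpr rfl⟩
    rw [h.1] at this
    exact Bool.false_ne_true this

theorem V8.f_inj : Function.Injective V8.f := by
  intro v w h
  have h0 := congrFun h 0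
  have h1 := congrFun h 1
  have h2 := congrFun h 2
  have h3 := congrFun h 3
  have h4 := congrFun h 4
  have h5 := congrFun h 5
  have h6 := congrFun h 6
  have h7 := congrFun h 7
  simp [V8.f] at h0 h1 h2 h3 h4 h5 h6 h7
  cases v; cases w
  simp_all

theorem pair_table : LV.map V8.f
    = LRV.map (fun r => fun j => (∑ i, Bs j i * r.f i) / 4) := by
  decide +kernel

end Pool.Agent.Q10.E8
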