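import Pool.Agent.Q10.E8.Inv
import Pool.Agent.Q10.E8.Roots
import Pool.Agent.Q10.E8.MainA

set_option autoImplicit false

namespace Pool.Agent.Q10.E8

/-- The doubled vector with coordinates `c` in the basis `Bs`. -/
def vec (c : Fin 8 → ℤ) : Fin 8 → ℤ := fun i => ∑ j, c j * Bs j i

/-- The shell `S_m` in doubled coordinates (the set of the frozen statement). -/
noncomputable def shell (m : ℕ) : Finset (Fin 8 → ℤ) :=
  (Fintype.piFinset (fun _ : Fin 8 => Finset.Icc (-(8 * (m : ℤ))) (8 * (m : ℤ)))).filter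
    (fun v : Fin 8 → ℤ => (∀ i j, v i % 2 = v j % 2) ∧ (∑ i, v i) % 4 = 0 ∧
      ∑ i, v i ^ 2 = 8 * (m : ℤ))

/-- The sum of the eighth powers of the inner products of `v` with the 240 roots. -/
noncomputable def rootSum (v : Fin 8 → ℤ) : ℤ := ∑ r ∈ shell 1, pr v r ^ 8

theorem le_sq (x : ℤ) : |x| ≤ x ^ 2 := by
  rw [← sq_abs]
  have h := abs_nonneg x
  nlinarith [Int.le_of_lt_add_one (show |x| * (|x| - 1) + 1 > 0 by
    rcases h.eq_or_lt with h0 | h0
    · rw [← h0]; norm_num
    · nlinarith)]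

theorem mem_shell (m : ℕ) (v : Fin 8 → ℤ) : v ∈ shell m ↔ InShell m v := by
  unfold shell InShell IsE8
  rw [Finset.mem_filter, Fintype.mem_piFinset]
  constructor
  · rintro ⟨-, h1, h2, h3⟩
    exact ⟨⟨h1, h2⟩, h3⟩
  · rintro ⟨⟨h1, h2⟩, h3⟩
    refine ⟨fun i => ?_, h1, h2, h3⟩
    rw [Finset.mem_Icc, ← abs_le]
    refine (le_sq _).trans ?_
    rw [← h3]
    exact Finset.single_le_sum (f := fun i => v i ^ 2) (fun i _ => sq_nonneg _) (Finset.mem_univ i)

theorem vec_norm (c : Fin 8 → ℤ) : ∑ i, vec c i ^ 2 = 8 * qf c := by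
  unfold vec
  simp only [Fin.sum_univ_eight]
  simp [Bs]
  unfold qf
  ring

theorem vec_surj (v : Fin 8 → ℤ) (hv : IsE8 v) : ∃ c, v = vec c := by
  obtain ⟨h1, h2⟩ := hv
  simp only [Fin.sum_univ_eight] at h2
  have p1 := h1 1 0
  have p2 := h1 2 0
  have p3 := h1 3 0
  have p4 := h1 4 0
  have p5 := h1 5 0
  have p6 := h1 6 0
  have p7 := h1 7 0
  refine ⟨![v 0, (v 1 - v 0) / 2, (v 2 - v 0) / 2, (v 3 - v 0) / 2, (v 4 - v 0) / 2,
    (v 5 - v 0) / 2, (v 6 - v 0) / 2,
    (v 1 + v 2 + v 3 + v 4 + v 5 + v 6 + v 7 - 7 * v 0) / 4], ?_⟩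
  funext i
  unfold vec
  simp only [Fin.sum_univ_eight]
  fin_cases i <;> simp [Bs] <;> omega

theorem isE8_basis (j : Fin 8) : IsE8 (Bs j) := by
  unfold IsE8
  revert j
  decide +kernel

theorem vec_isE8 (c : Fin 8 → ℤ) : IsE8 (vec c) := by
  constructor
  · intro i j
    have : ∀ i, vec c i % 2 = c 0 % 2 := by
      intro i
      unfold vec
      simp only [Fin.sum_univ_eight]
      fin_cases i <;> simp [Bs] <;> omega
    rw [this i, this j]
  · unfold vec
    simp only [Fin.sum_univ_eight]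
    simp [Bs]
    omega

theorem pr_vec (c r : Fin 8 → ℤ) (hr : IsE8 r) :
    pr (vec c) r = lf (fun j => pr (Bs j) r) c := by
  have h := pr_spec (vec c) r (vec_isE8 c) hr
  have h2 : ∑ i, vec c i * r i = 4 * lf (fun j => pr (Bs j) r) c := by
    unfold vec lf
    rw [Finset.mul_sum]
    have : ∀ i, (∑ j, c j * Bs j i) * r i = ∑ j, c j * (Bs j i * r i) := by
      intro i
      rw [Finset.sum_mul]
      exact Finset.sum_congr rfl fun j _ => by ring
    rw [Finset.sum_congr rfl fun i _ => this i, Finset.sum_comm]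
    refine Finset.sum_congr rfl fun j _ => ?_
    rw [← Finset.mul_sum, ← pr_spec (Bs j) r (isE8_basis j) hr]
    ring
  omega

theorem neg_f (v : V8) : v.neg.f = fun i => - v.f i := by
  funext i
  fin_cases i <;> simp [V8.f, V8.neg]

theorem good (v : V8) (hv : v ∈ AllR) : InShell 1 v.f := by
  have h := List.all_eq_true.mp AllR_good v hv
  simp only [Bool.and_eq_true, beq_iff_eq] at h
  obtain ⟨⟨h1, h2⟩, h3⟩ := h
  unfold V8.par at h1
  simp only [Bool.and_eq_true, beq_iff_eq] at h1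
  unfold V8.sum at h2
  unfold V8.nsq at h3
  refine ⟨⟨?_, ?_⟩, ?_⟩
  · have : ∀ i, v.f i % 2 = v.a0 % 2 := by
      intro i
      fin_cases i <;> simp [V8.f] <;> omega
    intro i j
    rw [this i, this j]
  · simp only [Fin.sum_univ_eight]
    simp [V8.f]
    omega
  · simp only [Fin.sum_univ_eight]
    simp [V8.f]
    linarith

theorem sgn_of (x : ℤ) (h1 : x % 2 = 1) (h2 : x ^ 2 ≤ 8) : ∃ b : Bool, x = sgn b := by
  have h3 : x ≤ 2 := by nlinarith
  have h4 : -2 ≤ x := by nlinarith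
  have : x = 1 ∨ x = -1 := by omega
  rcases this with h | h
  · exact ⟨true, h⟩
  · exact ⟨false, h⟩

theorem val_of (x : ℤ) (h1 : x % 2 = 0) (h2 : x ^ 2 ≤ 8) : ∃ b : T3, x = b.val := by
  have h3 : x ≤ 2 := by nlinarith
  have h4 : -2 ≤ x := by nlinarith
  have : x = -2 ∨ x = 0 ∨ x = 2 := by omega
  rcases this with h | h | h
  · exact ⟨.n, h⟩
  · exact ⟨.z, h⟩
  · exact ⟨.p, h⟩

theorem complete (v : Fin 8 → ℤ) (hv : InShell 1 v) : v ∈ AllR.map V8.f := by
  obtain ⟨⟨h1, h2⟩, h3⟩ := hv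
  have hle : ∀ i, v i ^ 2 ≤ 8 := by
    intro i
    have := Finset.single_le_sum (f := fun i => v i ^ 2) (fun i _ => sq_nonneg _)
      (Finset.mem_univ i)
    simp only [h3] at this
    simpa using this
  have hv : v = V8.f ⟨v 0, v 1, v 2, v 3, v 4, v 5, v 6, v 7⟩ := by
    funext i
    fin_cases i <;> simp [V8.f]
  rw [hv]
  refine List.mem_map.mpr ⟨_, ?_, rfl⟩
  simp only [Fin.sum_univ_eight] at h2 h3
  rcases Int.emod_two_eq_zero_or_one (v 0) with h0 | h0
  · choose t ht using fun i => val_of (v i) ((h1 i 0).trans h0) (hle i)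
    have := enum3 (t 0) (t 1) (t 2) (t 3) (t 4) (t 5) (t 6) (t 7)
    simp only [← ht] at this
    refine mem_of_any (this ?_)
    simp only [beq_iff_eq, V8.nsq]
    push_cast at h3
    linarith
  · choose t ht using fun i => sgn_of (v i) ((h1 i 0).trans h0) (hle i)
    have := enum2 (t 0) (t 1) (t 2) (t 3) (t 4) (t 5) (t 6) (t 7)
    simp only [← ht] at this
    refine mem_of_any (this ?_)
    simp only [beq_iff_eq, V8.sum]
    exact h2

theorem shell_one : shell 1 = (AllR.map V8.f).toFinset := by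
  ext v
  rw [mem_shell, List.mem_toFinset]
  constructor
  · exact complete v
  · intro h
    obtain ⟨w, hw, rfl⟩ := List.mem_map.mp h
    exact good w hw

theorem nodup_roots : (AllR.map V8.f).Nodup :=
  (nodup_of_pwne _ AllR_pwne).map V8.f_inj

theorem rootSum_list (v : Fin 8 → ℤ) :
    rootSum v = (AllR.map fun r => pr v r.f ^ 8).sum := by
  unfold rootSum
  rw [shell_one, List.sum_toFinset _ nodup_roots, List.map_map]
  rfl

theorem rootSum_vec (c : Fin 8 → ℤ) : rootSum (vec c) = 2 * S8 c := by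
  rw [rootSum_list]
  unfold AllR
  rw [List.map_append, List.sum_append, List.map_map]
  have e1 : (LRV.map fun r => pr (vec c) r.f ^ 8).sum = S8 c := by
    have h1 : (LRV.map fun r => pr (vec c) r.f ^ 8)
        = ((LRV.map (fun r => fun j => (∑ i, Bs j i * r.f i) / 4)).map fun r => lf r c ^ 8) := by
      rw [List.map_map]
      refine List.map_congr_left fun r hr => ?_
      rw [pr_vec c r.f (good r (List.mem_append_left _ hr)).1]
      rfl
    rw [h1, ← pair_table, List.map_map]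
    rfl
  have e2 : (LRV.map ((fun r => pr (vec c) r.f ^ 8) ∘ V8.neg)).sum
      = (LRV.map fun r => pr (vec c) r.f ^ 8).sum := by
    congr 1
    refine List.map_congr_left fun r hr => ?_
    have hr1 := (good r (List.mem_append_left _ hr)).1
    have hr2 := (good r.neg (List.mem_append_right _ (List.mem_map_of_mem hr))).1
    have s1 := pr_spec (vec c) r.f (vec_isE8 c) hr1
    have s2 := pr_spec (vec c) r.neg.f (vec_isE8 c) hr2
    have : ∑ i, vec c i * r.neg.f i = - ∑ i, vec c i * r.f i := by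
      rw [neg_f, ← Finset.sum_neg_distrib]
      exact Finset.sum_congr rfl fun i _ => by ring
    have e : pr (vec c) r.neg.f = - pr (vec c) r.f := by omega
    show pr (vec c) r.neg.f ^ 8 = _
    rw [e]
    ring
  rw [e2, e1]
  ring

end Pool.Agent.Q10.E8
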