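import Mathlib

set_option autoImplicit false

open MeasureTheory Metric Set
open scoped Pointwise RealInnerProductSpace

namespace Pool.Agent.Q10.E8

abbrev E : Type := EuclideanSpace ℝ (Fin 8)

abbrev S7 : Type := sphere (0 : E) 1

noncomputable abbrev sg : Measure S7 := (volume : Measure E).toSphere

noncomputable def rot (R : E ≃ₗᵢ[ℝ] E) (x : S7) : S7 := ⟨R (x : E), by simp⟩

theorem continuous_rot (R : E ≃ₗᵢ[ℝ] E) : Continuous (rot R) := by
  unfold rot
  exact Continuous.subtype_mk (R.continuous.comp continuous_subtype_val) _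

theorem smul_image_preimage (R : E ≃ₗᵢ[ℝ] E) (s : Set S7) :
    (Ioo (0 : ℝ) 1 • ((↑) '' (rot R ⁻¹' s) : Set E)) =
      R ⁻¹' (Ioo (0 : ℝ) 1 • ((↑) '' s : Set E)) := by
  ext v
  simp only [Set.mem_smul, Set.mem_image, Set.mem_preimage]
  constructor
  · rintro ⟨t, ht, w, ⟨x, hx, rfl⟩, rfl⟩
    exact ⟨t, ht, R (x : E), ⟨rot R x, hx, rfl⟩, by simp⟩
  · rintro ⟨t, ht, w, ⟨x, hx, rfl⟩, hv⟩
    have hxn : ‖(x : E)‖ = 1 := by simp
    refine ⟨t, ht, R.symm (x : E), ⟨⟨R.symm (x : E), by simp [hxn]⟩, ?_, rfl⟩, ?_⟩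
    · have : rot R ⟨R.symm (x : E), by simp [hxn]⟩ = x := by
        apply Subtype.ext
        simp [rot]
      rw [this]
      exact hx
    · apply R.injective
      rw [← hv]
      simp

theorem rot_mp (R : E ≃ₗᵢ[ℝ] E) : MeasurePreserving (rot R) sg sg := by
  refine ⟨(continuous_rot R).measurable, ?_⟩
  ext s hs
  rw [Measure.map_apply (continuous_rot R).measurable hs]
  rw [Measure.toSphere_apply' _ hs,
    Measure.toSphere_apply' _ ((continuous_rot R).measurable hs), smul_image_preimage]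
  congr 1
  exact (R.measurePreserving).measure_preimage_equiv (f := R.toMeasurableEquiv) _

theorem integrable_cont (f : S7 → ℝ) (hf : Continuous f) : Integrable f sg :=
  hf.integrable_of_hasCompactSupport (HasCompactSupport.of_compactSpace _)

theorem integral_rot (R : E ≃ₗᵢ[ℝ] E) (f : S7 → ℝ) (hf : Continuous f) :
    ∫ u, f (rot R u) ∂sg = ∫ u, f u ∂sg := by
  have h := rot_mp R
  rw [← h.map_eq]
  conv_lhs => rw [h.map_eq]
  rw [integral_map h.measurable.aemeasurable hf.aestronglyMeasurable]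

/-- The zonal moments. -/
noncomputable def F (k : ℕ) (w : E) : ℝ := ∫ u : S7, ⟪(u : E), w⟫ ^ k ∂sg

theorem cont_zonal (k : ℕ) (w : E) : Continuous (fun u : S7 => ⟪(u : E), w⟫ ^ k) := by
  fun_prop

theorem F_eq_of_norm (k : ℕ) (v w : E) (h : ‖v‖ = ‖w‖) : F k v = F k w := by
  set R : E ≃ₗᵢ[ℝ] E := (ℝ ∙ (v - w))ᗮ.reflection with hR
  have hRv : R v = w := Submodule.reflection_sub h
  unfold F
  have h1 := integral_rot R (fun u : S7 => ⟪(u : E), w⟫ ^ k) (cont_zonal k w)
  rw [← h1]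
  refine integral_congr_ae (Filter.Eventually.of_forall fun u => ?_)
  show ⟪(u : E), v⟫ ^ k = ⟪R (u : E), w⟫ ^ k
  rw [← hRv, R.inner_map_map]

theorem F_smul (k : ℕ) (c : ℝ) (w : E) : F k (c • w) = c ^ k * F k w := by
  unfold F
  rw [← integral_const_mul]
  refine integral_congr_ae (Filter.Eventually.of_forall fun u => ?_)
  show ⟪(u : E), c • w⟫ ^ k = c ^ k * ⟪(u : E), w⟫ ^ k
  rw [real_inner_smul_right, mul_pow]

noncomputable def e (i : Fin 8) : E := EuclideanSpace.single i 1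

theorem norm_e (i : Fin 8) : ‖e i‖ = 1 := by simp [e]

theorem inner_e (u : E) (i : Fin 8) : ⟪u, e i⟫ = u i := by
  simp [e, EuclideanSpace.inner_single_right]

theorem F_eq (k : ℕ) (w : E) : F k w = ‖w‖ ^ k * F k (e 0) := by
  have h : F k w = F k (‖w‖ • e 0) := by
    apply F_eq_of_norm
    rw [norm_smul, norm_e]; simp
  rw [h, F_smul]

noncomputable def M (i : Fin 8) (a b : ℕ) : ℝ := ∫ u : S7, ((u : E) 0) ^ a * ((u : E) i) ^ b ∂sg

theorem cont_coord (i : Fin 8) : Continuous (fun u : S7 => (u : E) i) := by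
  fun_prop

theorem cont_M (i : Fin 8) (a b : ℕ) : Continuous (fun u : S7 => ((u : E) 0) ^ a * ((u : E) i) ^ b) := by
  have h0 := cont_coord 0
  have h1 := cont_coord i
  fun_prop

theorem norm_e0_add (i : Fin 8) (hi : i ≠ 0) (t : ℝ) : ‖e 0 + t • e i‖ ^ 2 = 1 + t ^ 2 := by
  rw [← real_inner_self_eq_norm_sq, inner_add_left, inner_add_right, inner_add_right,
    real_inner_smul_left, real_inner_smul_right, real_inner_smul_right, real_inner_smul_left,
    inner_e, inner_e, inner_e, inner_e]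
  simp [e, hi, hi.symm]
  ring

theorem F_expand (k : ℕ) (i : Fin 8) (t : ℝ) :
    F k (e 0 + t • e i) = ∑ j ∈ Finset.range (k + 1), (k.choose j : ℝ) * t ^ (k - j) * M i j (k - j) := by
  unfold F M
  have h : ∀ u : S7, ⟪(u : E), e 0 + t • e i⟫ ^ k
      = ∑ j ∈ Finset.range (k + 1), ((k.choose j : ℝ) * t ^ (k - j)) * (((u : E) 0) ^ j * ((u : E) i) ^ (k - j)) := by
    intro u
    rw [inner_add_right, real_inner_smul_right, inner_e, inner_e, add_pow]
    refine Finset.sum_congr rfl fun j _ => ?_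
    rw [mul_pow]; ring
  simp only [h]
  rw [integral_finsetSum]
  · refine Finset.sum_congr rfl fun j _ => ?_
    rw [integral_const_mul]
  · intro j _
    exact (integrable_cont _ (cont_M i j (k - j))).const_mul _

theorem key (k : ℕ) (i : Fin 8) (hi : i ≠ 0) (t : ℝ) :
    (1 + t ^ 2) ^ k * F (2 * k) (e 0) =
      ∑ j ∈ Finset.range (2 * k + 1), ((2 * k).choose j : ℝ) * t ^ (2 * k - j) * M i j (2 * k - j) := by
  rw [← F_expand, F_eq (2 * k) (e 0 + t • e i), pow_mul, norm_e0_add i hi]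

theorem sum_sq (u : S7) : ∑ i, ((u : E) i) ^ 2 = 1 := by
  have h : ‖(u : E)‖ = 1 := by simp
  have h2 : ‖(u : E)‖ ^ 2 = ∑ i, ((u : E) i) ^ 2 := by
    rw [EuclideanSpace.norm_sq_eq]
    simp
  rw [← h2, h]; norm_num

theorem rec_M (k : ℕ) : F k (e 0) = ∑ i, M i k 2 := by
  unfold F M
  rw [← integral_finsetSum]
  · refine integral_congr_ae (Filter.Eventually.of_forall fun u => ?_)
    show ⟪(u : E), e 0⟫ ^ k = ∑ i, ((u : E) 0) ^ k * ((u : E) i) ^ 2
    rw [← Finset.mul_sum, sum_sq, inner_e, mul_one]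
  · intro i _
    exact integrable_cont _ (cont_M i k 2)

theorem M_zero (a b : ℕ) : M 0 a b = F (a + b) (e 0) := by
  unfold F M
  refine integral_congr_ae (Filter.Eventually.of_forall fun u => ?_)
  show ((u : E) 0) ^ a * ((u : E) 0) ^ b = ⟪(u : E), e 0⟫ ^ (a + b)
  rw [inner_e, pow_add]

theorem M_full (i : Fin 8) (a : ℕ) : M i a 0 = F a (e 0) := by
  unfold F M
  refine integral_congr_ae (Filter.Eventually.of_forall fun u => ?_)
  show ((u : E) 0) ^ a * ((u : E) i) ^ 0 = ⟪(u : E), e 0⟫ ^ a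
  rw [inner_e, pow_zero, mul_one]

theorem M_62 (i : Fin 8) (hi : i ≠ 0) : M i 6 2 = F 8 (e 0) / 7 := by
  have h := key 4 i hi
  have h1 := h 1
  have h1' := h (-1)
  have h2 := h 2
  have h2' := h (-2)
  have h3 := h 3
  have h3' := h (-3)
  have h4 := h 4
  have h4' := h (-4)
  have h0 := M_full i 8
  simp [Finset.sum_range_succ, Nat.choose] at h1 h1' h2 h2' h3 h3' h4 h4'
  norm_num [h0] at h1 h1' h2 h2' h3 h3' h4 h4'
  linarith

theorem M_42 (i : Fin 8) (hi : i ≠ 0) : M i 4 2 = F 6 (e 0) / 5 := by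
  have h := key 3 i hi
  have h1 := h 1
  have h1' := h (-1)
  have h2 := h 2
  have h2' := h (-2)
  have h3 := h 3
  have h3' := h (-3)
  have h0 := M_full i 6
  simp [Finset.sum_range_succ, Nat.choose] at h1 h1' h2 h2' h3 h3'
  norm_num [h0] at h1 h1' h2 h2' h3 h3'
  linarith

theorem M_22 (i : Fin 8) (hi : i ≠ 0) : M i 2 2 = F 4 (e 0) / 3 := by
  have h := key 2 i hi
  have h1 := h 1
  have h1' := h (-1)
  have h2 := h 2
  have h2' := h (-2)
  have h0 := M_full i 4
  simp [Finset.sum_range_succ, Nat.choose] at h1 h1' h2 h2'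
  norm_num [h0] at h1 h1' h2 h2'
  linarith

theorem M_02 (i : Fin 8) (hi : i ≠ 0) : M i 0 2 = F 2 (e 0) := by
  have h := key 1 i hi
  have h1 := h 1
  have h1' := h (-1)
  have h0 := M_full i 2
  simp [Finset.sum_range_succ] at h1 h1'
  norm_num [h0] at h1 h1'
  linarith

theorem F0 : F 0 (e 0) = sg.real Set.univ := by
  unfold F
  simp

theorem consts : F 2 (e 0) = sg.real Set.univ / 8 ∧ F 4 (e 0) = 3 / 80 * sg.real Set.univ ∧
    F 6 (e 0) = sg.real Set.univ / 64 ∧ F 8 (e 0) = sg.real Set.univ / 128 := by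
  have h0 := rec_M 0
  have h2 := rec_M 2
  have h4 := rec_M 4
  have h6 := rec_M 6
  rw [Fin.sum_univ_eight] at h0 h2 h4 h6
  rw [M_zero, M_02 1 (by decide), M_02 2 (by decide), M_02 3 (by decide), M_02 4 (by decide),
    M_02 5 (by decide), M_02 6 (by decide), M_02 7 (by decide), F0] at h0
  rw [M_zero, M_22 1 (by decide), M_22 2 (by decide), M_22 3 (by decide), M_22 4 (by decide),
    M_22 5 (by decide), M_22 6 (by decide), M_22 7 (by decide)] at h2
  rw [M_zero, M_42 1 (by decide), M_42 2 (by decide), M_42 3 (by decide), M_42 4 (by decide),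
    M_42 5 (by decide), M_42 6 (by decide), M_42 7 (by decide)] at h4
  rw [M_zero, M_62 1 (by decide), M_62 2 (by decide), M_62 3 (by decide), M_62 4 (by decide),
    M_62 5 (by decide), M_62 6 (by decide), M_62 7 (by decide)] at h6
  generalize sg.real Set.univ = V at h0 ⊢
  norm_num at h0 h2 h4 h6
  refine ⟨?_, ?_, ?_, ?_⟩ <;> linarith

/-- The zonal moments of the sphere in dimension 8. -/
theorem moments (w : E) :
    F 2 w = ‖w‖ ^ 2 * (sg.real Set.univ / 8) ∧ F 4 w = ‖w‖ ^ 4 * (3 / 80 * sg.real Set.univ) ∧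
    F 6 w = ‖w‖ ^ 6 * (sg.real Set.univ / 64) ∧ F 8 w = ‖w‖ ^ 8 * (sg.real Set.univ / 128) := by
  obtain ⟨h2, h4, h6, h8⟩ := consts
  refine ⟨?_, ?_, ?_, ?_⟩
  · rw [F_eq, h2]
  · rw [F_eq, h4]
  · rw [F_eq, h6]
  · rw [F_eq, h8]

theorem F_odd (k : ℕ) (hk : Odd k) (w : E) : F k w = 0 := by
  have h1 : F k (-w) = F k w := F_eq_of_norm k _ _ (by simp)
  have h2 : F k (-w) = - F k w := by
    rw [show -w = (-1 : ℝ) • w by simp, F_smul, hk.neg_one_pow]
    ring
  linarith

theorem vol_pos : 0 < sg.real Set.univ := by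
  rw [Measure.real, Measure.toSphere_apply_univ]
  have h1 : 0 < (volume : Measure E) (ball 0 1) := measure_ball_pos _ _ one_pos
  have h2 : (volume : Measure E) (ball 0 1) < ⊤ := measure_ball_lt_top
  refine ENNReal.toReal_pos ?_ ?_
  · simp [h1.ne']
  · exact ENNReal.mul_ne_top (by simp) h2.ne

end Pool.Agent.Q10.E8
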