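import Mathlib

set_option autoImplicit false

namespace Pool.Agent.Q10.E8

/-- Integer vectors with 8 coordinates, as a structure (fast in the kernel). -/
structure V8 where
  (a0 a1 a2 a3 a4 a5 a6 a7 : ℤ)

/-- The vector of a structure. -/
def V8.f (v : V8) : Fin 8 → ℤ := ![v.a0, v.a1, v.a2, v.a3, v.a4, v.a5, v.a6, v.a7]

/-- Pairing vectors of the 120 positive roots with the basis. -/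
def LV : List V8 := [
  ⟨(.ofNat 1),(.ofNat 1),(.ofNat 0),(.ofNat 0),(.ofNat 0),(.ofNat 0),(.ofNat 0),(.ofNat 0)⟩,
  ⟨(.ofNat 0),(.negSucc 0),(.ofNat 0),(.ofNat 0),(.ofNat 0),(.ofNat 0),(.ofNat 0),(.ofNat 0)⟩,
  ⟨(.ofNat 1),(.ofNat 0),(.ofNat 1),(.ofNat 0),(.ofNat 0),(.ofNat 0),(.ofNat 0),(.ofNat 0)⟩,
  ⟨(.ofNat 0),(.ofNat 0),(.negSucc 0),(.ofNat 0),(.ofNat 0),(.ofNat 0),(.ofNat 0),(.ofNat 0)⟩,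
  ⟨(.ofNat 1),(.ofNat 0),(.ofNat 0),(.ofNat 1),(.ofNat 0),(.ofNat 0),(.ofNat 0),(.ofNat 0)⟩,
  ⟨(.ofNat 0),(.ofNat 0),(.ofNat 0),(.negSucc 0),(.ofNat 0),(.ofNat 0),(.ofNat 0),(.ofNat 0)⟩,
  ⟨(.ofNat 1),(.ofNat 0),(.ofNat 0),(.ofNat 0),(.ofNat 1),(.ofNat 0),(.ofNat 0),(.ofNat 0)⟩,
  ⟨(.ofNat 0),(.ofNat 0),(.ofNat 0),(.ofNat 0),(.negSucc 0),(.ofNat 0),(.ofNat 0),(.ofNat 0)⟩,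
  ⟨(.ofNat 1),(.ofNat 0),(.ofNat 0),(.ofNat 0),(.ofNat 0),(.ofNat 1),(.ofNat 0),(.ofNat 0)⟩,
  ⟨(.ofNat 0),(.ofNat 0),(.ofNat 0),(.ofNat 0),(.ofNat 0),(.negSucc 0),(.ofNat 0),(.ofNat 0)⟩,
  ⟨(.ofNat 1),(.ofNat 0),(.ofNat 0),(.ofNat 0),(.ofNat 0),(.ofNat 0),(.ofNat 1),(.ofNat 0)⟩,
  ⟨(.ofNat 0),(.ofNat 0),(.ofNat 0),(.ofNat 0),(.ofNat 0),(.ofNat 0),(.negSucc 0),(.ofNat 0)⟩,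
  ⟨(.ofNat 1),(.negSucc 0),(.negSucc 0),(.negSucc 0),(.negSucc 0),(.negSucc 0),(.negSucc 0),(.ofNat 2)⟩,
  ⟨(.ofNat 0),(.ofNat 1),(.ofNat 1),(.ofNat 1),(.ofNat 1),(.ofNat 1),(.ofNat 1),(.negSucc 1)⟩,
  ⟨(.ofNat 1),(.ofNat 1),(.ofNat 1),(.ofNat 0),(.ofNat 0),(.ofNat 0),(.ofNat 0),(.ofNat 0)⟩,
  ⟨(.ofNat 0),(.ofNat 1),(.negSucc 0),(.ofNat 0),(.ofNat 0),(.ofNat 0),(.ofNat 0),(.ofNat 0)⟩,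
  ⟨(.ofNat 1),(.ofNat 1),(.ofNat 0),(.ofNat 1),(.ofNat 0),(.ofNat 0),(.ofNat 0),(.ofNat 0)⟩,
  ⟨(.ofNat 0),(.ofNat 1),(.ofNat 0),(.negSucc 0),(.ofNat 0),(.ofNat 0),(.ofNat 0),(.ofNat 0)⟩,
  ⟨(.ofNat 1),(.ofNat 1),(.ofNat 0),(.ofNat 0),(.ofNat 1),(.ofNat 0),(.ofNat 0),(.ofNat 0)⟩,
  ⟨(.ofNat 0),(.ofNat 1),(.ofNat 0),(.ofNat 0),(.negSucc 0),(.ofNat 0),(.ofNat 0),(.ofNat 0)⟩,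
  ⟨(.ofNat 1),(.ofNat 1),(.ofNat 0),(.ofNat 0),(.ofNat 0),(.ofNat 1),(.ofNat 0),(.ofNat 0)⟩,
  ⟨(.ofNat 0),(.ofNat 1),(.ofNat 0),(.ofNat 0),(.ofNat 0),(.negSucc 0),(.ofNat 0),(.ofNat 0)⟩,
  ⟨(.ofNat 1),(.ofNat 1),(.ofNat 0),(.ofNat 0),(.ofNat 0),(.ofNat 0),(.ofNat 1),(.ofNat 0)⟩,
  ⟨(.ofNat 0),(.ofNat 1),(.ofNat 0),(.ofNat 0),(.ofNat 0),(.ofNat 0),(.negSucc 0),(.ofNat 0)⟩,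
  ⟨(.ofNat 1),(.ofNat 0),(.negSucc 0),(.negSucc 0),(.negSucc 0),(.negSucc 0),(.negSucc 0),(.ofNat 2)⟩,
  ⟨(.ofNat 0),(.ofNat 2),(.ofNat 1),(.ofNat 1),(.ofNat 1),(.ofNat 1),(.ofNat 1),(.negSucc 1)⟩,
  ⟨(.ofNat 1),(.ofNat 0),(.ofNat 1),(.ofNat 1),(.ofNat 0),(.ofNat 0),(.ofNat 0),(.ofNat 0)⟩,
  ⟨(.ofNat 0),(.ofNat 0),(.ofNat 1),(.negSucc 0),(.ofNat 0),(.ofNat 0),(.ofNat 0),(.ofNat 0)⟩,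
  ⟨(.ofNat 1),(.ofNat 0),(.ofNat 1),(.ofNat 0),(.ofNat 1),(.ofNat 0),(.ofNat 0),(.ofNat 0)⟩,
  ⟨(.ofNat 0),(.ofNat 0),(.ofNat 1),(.ofNat 0),(.negSucc 0),(.ofNat 0),(.ofNat 0),(.ofNat 0)⟩,
  ⟨(.ofNat 1),(.ofNat 0),(.ofNat 1),(.ofNat 0),(.ofNat 0),(.ofNat 1),(.ofNat 0),(.ofNat 0)⟩,
  ⟨(.ofNat 0),(.ofNat 0),(.ofNat 1),(.ofNat 0),(.ofNat 0),(.negSucc 0),(.ofNat 0),(.ofNat 0)⟩,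
  ⟨(.ofNat 1),(.ofNat 0),(.ofNat 1),(.ofNat 0),(.ofNat 0),(.ofNat 0),(.ofNat 1),(.ofNat 0)⟩,
  ⟨(.ofNat 0),(.ofNat 0),(.ofNat 1),(.ofNat 0),(.ofNat 0),(.ofNat 0),(.negSucc 0),(.ofNat 0)⟩,
  ⟨(.ofNat 1),(.negSucc 0),(.ofNat 0),(.negSucc 0),(.negSucc 0),(.negSucc 0),(.negSucc 0),(.ofNat 2)⟩,
  ⟨(.ofNat 0),(.ofNat 1),(.ofNat 2),(.ofNat 1),(.ofNat 1),(.ofNat 1),(.ofNat 1),(.negSucc 1)⟩,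
  ⟨(.ofNat 1),(.ofNat 0),(.ofNat 0),(.ofNat 1),(.ofNat 1),(.ofNat 0),(.ofNat 0),(.ofNat 0)⟩,
  ⟨(.ofNat 0),(.ofNat 0),(.ofNat 0),(.ofNat 1),(.negSucc 0),(.ofNat 0),(.ofNat 0),(.ofNat 0)⟩,
  ⟨(.ofNat 1),(.ofNat 0),(.ofNat 0),(.ofNat 1),(.ofNat 0),(.ofNat 1),(.ofNat 0),(.ofNat 0)⟩,
  ⟨(.ofNat 0),(.ofNat 0),(.ofNat 0),(.ofNat 1),(.ofNat 0),(.negSucc 0),(.ofNat 0),(.ofNat 0)⟩,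
  ⟨(.ofNat 1),(.ofNat 0),(.ofNat 0),(.ofNat 1),(.ofNat 0),(.ofNat 0),(.ofNat 1),(.ofNat 0)⟩,
  ⟨(.ofNat 0),(.ofNat 0),(.ofNat 0),(.ofNat 1),(.ofNat 0),(.ofNat 0),(.negSucc 0),(.ofNat 0)⟩,
  ⟨(.ofNat 1),(.negSucc 0),(.negSucc 0),(.ofNat 0),(.negSucc 0),(.negSucc 0),(.negSucc 0),(.ofNat 2)⟩,
  ⟨(.ofNat 0),(.ofNat 1),(.ofNat 1),(.ofNat 2),(.ofNat 1),(.ofNat 1),(.ofNat 1),(.negSucc 1)⟩,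
  ⟨(.ofNat 1),(.ofNat 0),(.ofNat 0),(.ofNat 0),(.ofNat 1),(.ofNat 1),(.ofNat 0),(.ofNat 0)⟩,
  ⟨(.ofNat 0),(.ofNat 0),(.ofNat 0),(.ofNat 0),(.ofNat 1),(.negSucc 0),(.ofNat 0),(.ofNat 0)⟩,
  ⟨(.ofNat 1),(.ofNat 0),(.ofNat 0),(.ofNat 0),(.ofNat 1),(.ofNat 0),(.ofNat 1),(.ofNat 0)⟩,
  ⟨(.ofNat 0),(.ofNat 0),(.ofNat 0),(.ofNat 0),(.ofNat 1),(.ofNat 0),(.negSucc 0),(.ofNat 0)⟩,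
  ⟨(.ofNat 1),(.negSucc 0),(.negSucc 0),(.negSucc 0),(.ofNat 0),(.negSucc 0),(.negSucc 0),(.ofNat 2)⟩,
  ⟨(.ofNat 0),(.ofNat 1),(.ofNat 1),(.ofNat 1),(.ofNat 2),(.ofNat 1),(.ofNat 1),(.negSucc 1)⟩,
  ⟨(.ofNat 1),(.ofNat 0),(.ofNat 0),(.ofNat 0),(.ofNat 0),(.ofNat 1),(.ofNat 1),(.ofNat 0)⟩,
  ⟨(.ofNat 0),(.ofNat 0),(.ofNat 0),(.ofNat 0),(.ofNat 0),(.ofNat 1),(.negSucc 0),(.ofNat 0)⟩,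
  ⟨(.ofNat 1),(.negSucc 0),(.negSucc 0),(.negSucc 0),(.negSucc 0),(.ofNat 0),(.negSucc 0),(.ofNat 2)⟩,
  ⟨(.ofNat 0),(.ofNat 1),(.ofNat 1),(.ofNat 1),(.ofNat 1),(.ofNat 2),(.ofNat 1),(.negSucc 1)⟩,
  ⟨(.ofNat 1),(.negSucc 0),(.negSucc 0),(.negSucc 0),(.negSucc 0),(.negSucc 0),(.ofNat 0),(.ofNat 2)⟩,
  ⟨(.ofNat 0),(.ofNat 1),(.ofNat 1),(.ofNat 1),(.ofNat 1),(.ofNat 1),(.ofNat 2),(.negSucc 1)⟩,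
  ⟨(.ofNat 2),(.ofNat 0),(.ofNat 0),(.ofNat 0),(.ofNat 0),(.ofNat 0),(.ofNat 0),(.ofNat 1)⟩,
  ⟨(.ofNat 1),(.ofNat 1),(.ofNat 1),(.ofNat 1),(.ofNat 1),(.ofNat 1),(.ofNat 0),(.negSucc 0)⟩,
  ⟨(.ofNat 1),(.ofNat 1),(.ofNat 1),(.ofNat 1),(.ofNat 1),(.ofNat 0),(.ofNat 1),(.negSucc 0)⟩,
  ⟨(.ofNat 1),(.ofNat 0),(.ofNat 0),(.ofNat 0),(.ofNat 0),(.negSucc 0),(.negSucc 0),(.ofNat 1)⟩,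
  ⟨(.ofNat 1),(.ofNat 1),(.ofNat 1),(.ofNat 1),(.ofNat 0),(.ofNat 1),(.ofNat 1),(.negSucc 0)⟩,
  ⟨(.ofNat 1),(.ofNat 0),(.ofNat 0),(.ofNat 0),(.negSucc 0),(.ofNat 0),(.negSucc 0),(.ofNat 1)⟩,
  ⟨(.ofNat 1),(.ofNat 0),(.ofNat 0),(.ofNat 0),(.negSucc 0),(.negSucc 0),(.ofNat 0),(.ofNat 1)⟩,
  ⟨(.ofNat 0),(.ofNat 1),(.ofNat 1),(.ofNat 1),(.ofNat 0),(.ofNat 0),(.ofNat 0),(.negSucc 0)⟩,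
  ⟨(.ofNat 1),(.ofNat 1),(.ofNat 1),(.ofNat 0),(.ofNat 1),(.ofNat 1),(.ofNat 1),(.negSucc 0)⟩,
  ⟨(.ofNat 1),(.ofNat 0),(.ofNat 0),(.negSucc 0),(.ofNat 0),(.ofNat 0),(.negSucc 0),(.ofNat 1)⟩,
  ⟨(.ofNat 1),(.ofNat 0),(.ofNat 0),(.negSucc 0),(.ofNat 0),(.negSucc 0),(.ofNat 0),(.ofNat 1)⟩,
  ⟨(.ofNat 0),(.ofNat 1),(.ofNat 1),(.ofNat 0),(.ofNat 1),(.ofNat 0),(.ofNat 0),(.negSucc 0)⟩,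
  ⟨(.ofNat 1),(.ofNat 0),(.ofNat 0),(.negSucc 0),(.negSucc 0),(.ofNat 0),(.ofNat 0),(.ofNat 1)⟩,
  ⟨(.ofNat 0),(.ofNat 1),(.ofNat 1),(.ofNat 0),(.ofNat 0),(.ofNat 1),(.ofNat 0),(.negSucc 0)⟩,
  ⟨(.ofNat 0),(.ofNat 1),(.ofNat 1),(.ofNat 0),(.ofNat 0),(.ofNat 0),(.ofNat 1),(.negSucc 0)⟩,
  ⟨(.ofNat 0),(.ofNat 0),(.ofNat 0),(.negSucc 0),(.negSucc 0),(.negSucc 0),(.negSucc 0),(.ofNat 1)⟩,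
  ⟨(.ofNat 1),(.ofNat 1),(.ofNat 0),(.ofNat 1),(.ofNat 1),(.ofNat 1),(.ofNat 1),(.negSucc 0)⟩,
  ⟨(.ofNat 1),(.ofNat 0),(.negSucc 0),(.ofNat 0),(.ofNat 0),(.ofNat 0),(.negSucc 0),(.ofNat 1)⟩,
  ⟨(.ofNat 1),(.ofNat 0),(.negSucc 0),(.ofNat 0),(.ofNat 0),(.negSucc 0),(.ofNat 0),(.ofNat 1)⟩,
  ⟨(.ofNat 0),(.ofNat 1),(.ofNat 0),(.ofNat 1),(.ofNat 1),(.ofNat 0),(.ofNat 0),(.negSucc 0)⟩,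
  ⟨(.ofNat 1),(.ofNat 0),(.negSucc 0),(.ofNat 0),(.negSucc 0),(.ofNat 0),(.ofNat 0),(.ofNat 1)⟩,
  ⟨(.ofNat 0),(.ofNat 1),(.ofNat 0),(.ofNat 1),(.ofNat 0),(.ofNat 1),(.ofNat 0),(.negSucc 0)⟩,
  ⟨(.ofNat 0),(.ofNat 1),(.ofNat 0),(.ofNat 1),(.ofNat 0),(.ofNat 0),(.ofNat 1),(.negSucc 0)⟩,
  ⟨(.ofNat 0),(.ofNat 0),(.negSucc 0),(.ofNat 0),(.negSucc 0),(.negSucc 0),(.negSucc 0),(.ofNat 1)⟩,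
  ⟨(.ofNat 1),(.ofNat 0),(.negSucc 0),(.negSucc 0),(.ofNat 0),(.ofNat 0),(.ofNat 0),(.ofNat 1)⟩,
  ⟨(.ofNat 0),(.ofNat 1),(.ofNat 0),(.ofNat 0),(.ofNat 1),(.ofNat 1),(.ofNat 0),(.negSucc 0)⟩,
  ⟨(.ofNat 0),(.ofNat 1),(.ofNat 0),(.ofNat 0),(.ofNat 1),(.ofNat 0),(.ofNat 1),(.negSucc 0)⟩,
  ⟨(.ofNat 0),(.ofNat 0),(.negSucc 0),(.negSucc 0),(.ofNat 0),(.negSucc 0),(.negSucc 0),(.ofNat 1)⟩,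
  ⟨(.ofNat 0),(.ofNat 1),(.ofNat 0),(.ofNat 0),(.ofNat 0),(.ofNat 1),(.ofNat 1),(.negSucc 0)⟩,
  ⟨(.ofNat 0),(.ofNat 0),(.negSucc 0),(.negSucc 0),(.negSucc 0),(.ofNat 0),(.negSucc 0),(.ofNat 1)⟩,
  ⟨(.ofNat 0),(.ofNat 0),(.negSucc 0),(.negSucc 0),(.negSucc 0),(.negSucc 0),(.ofNat 0),(.ofNat 1)⟩,
  ⟨(.negSucc 0),(.ofNat 1),(.ofNat 0),(.ofNat 0),(.ofNat 0),(.ofNat 0),(.ofNat 0),(.negSucc 0)⟩,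
  ⟨(.ofNat 1),(.ofNat 0),(.ofNat 1),(.ofNat 1),(.ofNat 1),(.ofNat 1),(.ofNat 1),(.negSucc 0)⟩,
  ⟨(.ofNat 1),(.negSucc 0),(.ofNat 0),(.ofNat 0),(.ofNat 0),(.ofNat 0),(.negSucc 0),(.ofNat 1)⟩,
  ⟨(.ofNat 1),(.negSucc 0),(.ofNat 0),(.ofNat 0),(.ofNat 0),(.negSucc 0),(.ofNat 0),(.ofNat 1)⟩,
  ⟨(.ofNat 0),(.ofNat 0),(.ofNat 1),(.ofNat 1),(.ofNat 1),(.ofNat 0),(.ofNat 0),(.negSucc 0)⟩,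
  ⟨(.ofNat 1),(.negSucc 0),(.ofNat 0),(.ofNat 0),(.negSucc 0),(.ofNat 0),(.ofNat 0),(.ofNat 1)⟩,
  ⟨(.ofNat 0),(.ofNat 0),(.ofNat 1),(.ofNat 1),(.ofNat 0),(.ofNat 1),(.ofNat 0),(.negSucc 0)⟩,
  ⟨(.ofNat 0),(.ofNat 0),(.ofNat 1),(.ofNat 1),(.ofNat 0),(.ofNat 0),(.ofNat 1),(.negSucc 0)⟩,
  ⟨(.ofNat 0),(.negSucc 0),(.ofNat 0),(.ofNat 0),(.negSucc 0),(.negSucc 0),(.negSucc 0),(.ofNat 1)⟩,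
  ⟨(.ofNat 1),(.negSucc 0),(.ofNat 0),(.negSucc 0),(.ofNat 0),(.ofNat 0),(.ofNat 0),(.ofNat 1)⟩,
  ⟨(.ofNat 0),(.ofNat 0),(.ofNat 1),(.ofNat 0),(.ofNat 1),(.ofNat 1),(.ofNat 0),(.negSucc 0)⟩,
  ⟨(.ofNat 0),(.ofNat 0),(.ofNat 1),(.ofNat 0),(.ofNat 1),(.ofNat 0),(.ofNat 1),(.negSucc 0)⟩,
  ⟨(.ofNat 0),(.negSucc 0),(.ofNat 0),(.negSucc 0),(.ofNat 0),(.negSucc 0),(.negSucc 0),(.ofNat 1)⟩,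
  ⟨(.ofNat 0),(.ofNat 0),(.ofNat 1),(.ofNat 0),(.ofNat 0),(.ofNat 1),(.ofNat 1),(.negSucc 0)⟩,
  ⟨(.ofNat 0),(.negSucc 0),(.ofNat 0),(.negSucc 0),(.negSucc 0),(.ofNat 0),(.negSucc 0),(.ofNat 1)⟩,
  ⟨(.ofNat 0),(.negSucc 0),(.ofNat 0),(.negSucc 0),(.negSucc 0),(.negSucc 0),(.ofNat 0),(.ofNat 1)⟩,
  ⟨(.negSucc 0),(.ofNat 0),(.ofNat 1),(.ofNat 0),(.ofNat 0),(.ofNat 0),(.ofNat 0),(.negSucc 0)⟩,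
  ⟨(.ofNat 1),(.negSucc 0),(.negSucc 0),(.ofNat 0),(.ofNat 0),(.ofNat 0),(.ofNat 0),(.ofNat 1)⟩,
  ⟨(.ofNat 0),(.ofNat 0),(.ofNat 0),(.ofNat 1),(.ofNat 1),(.ofNat 1),(.ofNat 0),(.negSucc 0)⟩,
  ⟨(.ofNat 0),(.ofNat 0),(.ofNat 0),(.ofNat 1),(.ofNat 1),(.ofNat 0),(.ofNat 1),(.negSucc 0)⟩,
  ⟨(.ofNat 0),(.negSucc 0),(.negSucc 0),(.ofNat 0),(.ofNat 0),(.negSucc 0),(.negSucc 0),(.ofNat 1)⟩,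
  ⟨(.ofNat 0),(.ofNat 0),(.ofNat 0),(.ofNat 1),(.ofNat 0),(.ofNat 1),(.ofNat 1),(.negSucc 0)⟩,
  ⟨(.ofNat 0),(.negSucc 0),(.negSucc 0),(.ofNat 0),(.negSucc 0),(.ofNat 0),(.negSucc 0),(.ofNat 1)⟩,
  ⟨(.ofNat 0),(.negSucc 0),(.negSucc 0),(.ofNat 0),(.negSucc 0),(.negSucc 0),(.ofNat 0),(.ofNat 1)⟩,
  ⟨(.negSucc 0),(.ofNat 0),(.ofNat 0),(.ofNat 1),(.ofNat 0),(.ofNat 0),(.ofNat 0),(.negSucc 0)⟩,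
  ⟨(.ofNat 0),(.ofNat 0),(.ofNat 0),(.ofNat 0),(.ofNat 1),(.ofNat 1),(.ofNat 1),(.negSucc 0)⟩,
  ⟨(.ofNat 0),(.negSucc 0),(.negSucc 0),(.negSucc 0),(.ofNat 0),(.ofNat 0),(.negSucc 0),(.ofNat 1)⟩,
  ⟨(.ofNat 0),(.negSucc 0),(.negSucc 0),(.negSucc 0),(.ofNat 0),(.negSucc 0),(.ofNat 0),(.ofNat 1)⟩,
  ⟨(.negSucc 0),(.ofNat 0),(.ofNat 0),(.ofNat 0),(.ofNat 1),(.ofNat 0),(.ofNat 0),(.negSucc 0)⟩,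
  ⟨(.ofNat 0),(.negSucc 0),(.negSucc 0),(.negSucc 0),(.negSucc 0),(.ofNat 0),(.ofNat 0),(.ofNat 1)⟩,
  ⟨(.negSucc 0),(.ofNat 0),(.ofNat 0),(.ofNat 0),(.ofNat 0),(.ofNat 1),(.ofNat 0),(.negSucc 0)⟩,
  ⟨(.negSucc 0),(.ofNat 0),(.ofNat 0),(.ofNat 0),(.ofNat 0),(.ofNat 0),(.ofNat 1),(.negSucc 0)⟩,
  ⟨(.negSucc 0),(.negSucc 0),(.negSucc 0),(.negSucc 0),(.negSucc 0),(.negSucc 0),(.negSucc 0),(.ofNat 1)⟩]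

/-- The 120 positive roots in doubled coordinates. -/
def LRV : List V8 := [
  ⟨(.ofNat 2),(.ofNat 2),(.ofNat 0),(.ofNat 0),(.ofNat 0),(.ofNat 0),(.ofNat 0),(.ofNat 0)⟩,
  ⟨(.ofNat 2),(.negSucc 1),(.ofNat 0),(.ofNat 0),(.ofNat 0),(.ofNat 0),(.ofNat 0),(.ofNat 0)⟩,
  ⟨(.ofNat 2),(.ofNat 0),(.ofNat 2),(.ofNat 0),(.ofNat 0),(.ofNat 0),(.ofNat 0),(.ofNat 0)⟩,
  ⟨(.ofNat 2),(.ofNat 0),(.negSucc 1),(.ofNat 0),(.ofNat 0),(.ofNat 0),(.ofNat 0),(.ofNat 0)⟩,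
  ⟨(.ofNat 2),(.ofNat 0),(.ofNat 0),(.ofNat 2),(.ofNat 0),(.ofNat 0),(.ofNat 0),(.ofNat 0)⟩,
  ⟨(.ofNat 2),(.ofNat 0),(.ofNat 0),(.negSucc 1),(.ofNat 0),(.ofNat 0),(.ofNat 0),(.ofNat 0)⟩,
  ⟨(.ofNat 2),(.ofNat 0),(.ofNat 0),(.ofNat 0),(.ofNat 2),(.ofNat 0),(.ofNat 0),(.ofNat 0)⟩,
  ⟨(.ofNat 2),(.ofNat 0),(.ofNat 0),(.ofNat 0),(.negSucc 1),(.ofNat 0),(.ofNat 0),(.ofNat 0)⟩,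
  ⟨(.ofNat 2),(.ofNat 0),(.ofNat 0),(.ofNat 0),(.ofNat 0),(.ofNat 2),(.ofNat 0),(.ofNat 0)⟩,
  ⟨(.ofNat 2),(.ofNat 0),(.ofNat 0),(.ofNat 0),(.ofNat 0),(.negSucc 1),(.ofNat 0),(.ofNat 0)⟩,
  ⟨(.ofNat 2),(.ofNat 0),(.ofNat 0),(.ofNat 0),(.ofNat 0),(.ofNat 0),(.ofNat 2),(.ofNat 0)⟩,
  ⟨(.ofNat 2),(.ofNat 0),(.ofNat 0),(.ofNat 0),(.ofNat 0),(.ofNat 0),(.negSucc 1),(.ofNat 0)⟩,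
  ⟨(.ofNat 2),(.ofNat 0),(.ofNat 0),(.ofNat 0),(.ofNat 0),(.ofNat 0),(.ofNat 0),(.ofNat 2)⟩,
  ⟨(.ofNat 2),(.ofNat 0),(.ofNat 0),(.ofNat 0),(.ofNat 0),(.ofNat 0),(.ofNat 0),(.negSucc 1)⟩,
  ⟨(.ofNat 0),(.ofNat 2),(.ofNat 2),(.ofNat 0),(.ofNat 0),(.ofNat 0),(.ofNat 0),(.ofNat 0)⟩,
  ⟨(.ofNat 0),(.ofNat 2),(.negSucc 1),(.ofNat 0),(.ofNat 0),(.ofNat 0),(.ofNat 0),(.ofNat 0)⟩,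
  ⟨(.ofNat 0),(.ofNat 2),(.ofNat 0),(.ofNat 2),(.ofNat 0),(.ofNat 0),(.ofNat 0),(.ofNat 0)⟩,
  ⟨(.ofNat 0),(.ofNat 2),(.ofNat 0),(.negSucc 1),(.ofNat 0),(.ofNat 0),(.ofNat 0),(.ofNat 0)⟩,
  ⟨(.ofNat 0),(.ofNat 2),(.ofNat 0),(.ofNat 0),(.ofNat 2),(.ofNat 0),(.ofNat 0),(.ofNat 0)⟩,
  ⟨(.ofNat 0),(.ofNat 2),(.ofNat 0),(.ofNat 0),(.negSucc 1),(.ofNat 0),(.ofNat 0),(.ofNat 0)⟩,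
  ⟨(.ofNat 0),(.ofNat 2),(.ofNat 0),(.ofNat 0),(.ofNat 0),(.ofNat 2),(.ofNat 0),(.ofNat 0)⟩,
  ⟨(.ofNat 0),(.ofNat 2),(.ofNat 0),(.ofNat 0),(.ofNat 0),(.negSucc 1),(.ofNat 0),(.ofNat 0)⟩,
  ⟨(.ofNat 0),(.ofNat 2),(.ofNat 0),(.ofNat 0),(.ofNat 0),(.ofNat 0),(.ofNat 2),(.ofNat 0)⟩,
  ⟨(.ofNat 0),(.ofNat 2),(.ofNat 0),(.ofNat 0),(.ofNat 0),(.ofNat 0),(.negSucc 1),(.ofNat 0)⟩,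
  ⟨(.ofNat 0),(.ofNat 2),(.ofNat 0),(.ofNat 0),(.ofNat 0),(.ofNat 0),(.ofNat 0),(.ofNat 2)⟩,
  ⟨(.ofNat 0),(.ofNat 2),(.ofNat 0),(.ofNat 0),(.ofNat 0),(.ofNat 0),(.ofNat 0),(.negSucc 1)⟩,
  ⟨(.ofNat 0),(.ofNat 0),(.ofNat 2),(.ofNat 2),(.ofNat 0),(.ofNat 0),(.ofNat 0),(.ofNat 0)⟩,
  ⟨(.ofNat 0),(.ofNat 0),(.ofNat 2),(.negSucc 1),(.ofNat 0),(.ofNat 0),(.ofNat 0),(.ofNat 0)⟩,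
  ⟨(.ofNat 0),(.ofNat 0),(.ofNat 2),(.ofNat 0),(.ofNat 2),(.ofNat 0),(.ofNat 0),(.ofNat 0)⟩,
  ⟨(.ofNat 0),(.ofNat 0),(.ofNat 2),(.ofNat 0),(.negSucc 1),(.ofNat 0),(.ofNat 0),(.ofNat 0)⟩,
  ⟨(.ofNat 0),(.ofNat 0),(.ofNat 2),(.ofNat 0),(.ofNat 0),(.ofNat 2),(.ofNat 0),(.ofNat 0)⟩,
  ⟨(.ofNat 0),(.ofNat 0),(.ofNat 2),(.ofNat 0),(.ofNat 0),(.negSucc 1),(.ofNat 0),(.ofNat 0)⟩,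
  ⟨(.ofNat 0),(.ofNat 0),(.ofNat 2),(.ofNat 0),(.ofNat 0),(.ofNat 0),(.ofNat 2),(.ofNat 0)⟩,
  ⟨(.ofNat 0),(.ofNat 0),(.ofNat 2),(.ofNat 0),(.ofNat 0),(.ofNat 0),(.negSucc 1),(.ofNat 0)⟩,
  ⟨(.ofNat 0),(.ofNat 0),(.ofNat 2),(.ofNat 0),(.ofNat 0),(.ofNat 0),(.ofNat 0),(.ofNat 2)⟩,
  ⟨(.ofNat 0),(.ofNat 0),(.ofNat 2),(.ofNat 0),(.ofNat 0),(.ofNat 0),(.ofNat 0),(.negSucc 1)⟩,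
  ⟨(.ofNat 0),(.ofNat 0),(.ofNat 0),(.ofNat 2),(.ofNat 2),(.ofNat 0),(.ofNat 0),(.ofNat 0)⟩,
  ⟨(.ofNat 0),(.ofNat 0),(.ofNat 0),(.ofNat 2),(.negSucc 1),(.ofNat 0),(.ofNat 0),(.ofNat 0)⟩,
  ⟨(.ofNat 0),(.ofNat 0),(.ofNat 0),(.ofNat 2),(.ofNat 0),(.ofNat 2),(.ofNat 0),(.ofNat 0)⟩,
  ⟨(.ofNat 0),(.ofNat 0),(.ofNat 0),(.ofNat 2),(.ofNat 0),(.negSucc 1),(.ofNat 0),(.ofNat 0)⟩,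
  ⟨(.ofNat 0),(.ofNat 0),(.ofNat 0),(.ofNat 2),(.ofNat 0),(.ofNat 0),(.ofNat 2),(.ofNat 0)⟩,
  ⟨(.ofNat 0),(.ofNat 0),(.ofNat 0),(.ofNat 2),(.ofNat 0),(.ofNat 0),(.negSucc 1),(.ofNat 0)⟩,
  ⟨(.ofNat 0),(.ofNat 0),(.ofNat 0),(.ofNat 2),(.ofNat 0),(.ofNat 0),(.ofNat 0),(.ofNat 2)⟩,
  ⟨(.ofNat 0),(.ofNat 0),(.ofNat 0),(.ofNat 2),(.ofNat 0),(.ofNat 0),(.ofNat 0),(.negSucc 1)⟩,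
  ⟨(.ofNat 0),(.ofNat 0),(.ofNat 0),(.ofNat 0),(.ofNat 2),(.ofNat 2),(.ofNat 0),(.ofNat 0)⟩,
  ⟨(.ofNat 0),(.ofNat 0),(.ofNat 0),(.ofNat 0),(.ofNat 2),(.negSucc 1),(.ofNat 0),(.ofNat 0)⟩,
  ⟨(.ofNat 0),(.ofNat 0),(.ofNat 0),(.ofNat 0),(.ofNat 2),(.ofNat 0),(.ofNat 2),(.ofNat 0)⟩,
  ⟨(.ofNat 0),(.ofNat 0),(.ofNat 0),(.ofNat 0),(.ofNat 2),(.ofNat 0),(.negSucc 1),(.ofNat 0)⟩,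
  ⟨(.ofNat 0),(.ofNat 0),(.ofNat 0),(.ofNat 0),(.ofNat 2),(.ofNat 0),(.ofNat 0),(.ofNat 2)⟩,
  ⟨(.ofNat 0),(.ofNat 0),(.ofNat 0),(.ofNat 0),(.ofNat 2),(.ofNat 0),(.ofNat 0),(.negSucc 1)⟩,
  ⟨(.ofNat 0),(.ofNat 0),(.ofNat 0),(.ofNat 0),(.ofNat 0),(.ofNat 2),(.ofNat 2),(.ofNat 0)⟩,
  ⟨(.ofNat 0),(.ofNat 0),(.ofNat 0),(.ofNat 0),(.ofNat 0),(.ofNat 2),(.negSucc 1),(.ofNat 0)⟩,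
  ⟨(.ofNat 0),(.ofNat 0),(.ofNat 0),(.ofNat 0),(.ofNat 0),(.ofNat 2),(.ofNat 0),(.ofNat 2)⟩,
  ⟨(.ofNat 0),(.ofNat 0),(.ofNat 0),(.ofNat 0),(.ofNat 0),(.ofNat 2),(.ofNat 0),(.negSucc 1)⟩,
  ⟨(.ofNat 0),(.ofNat 0),(.ofNat 0),(.ofNat 0),(.ofNat 0),(.ofNat 0),(.ofNat 2),(.ofNat 2)⟩,
  ⟨(.ofNat 0),(.ofNat 0),(.ofNat 0),(.ofNat 0),(.ofNat 0),(.ofNat 0),(.ofNat 2),(.negSucc 1)⟩,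
  ⟨(.ofNat 1),(.ofNat 1),(.ofNat 1),(.ofNat 1),(.ofNat 1),(.ofNat 1),(.ofNat 1),(.ofNat 1)⟩,
  ⟨(.ofNat 1),(.ofNat 1),(.ofNat 1),(.ofNat 1),(.ofNat 1),(.ofNat 1),(.negSucc 0),(.negSucc 0)⟩,
  ⟨(.ofNat 1),(.ofNat 1),(.ofNat 1),(.ofNat 1),(.ofNat 1),(.negSucc 0),(.ofNat 1),(.negSucc 0)⟩,
  ⟨(.ofNat 1),(.ofNat 1),(.ofNat 1),(.ofNat 1),(.ofNat 1),(.negSucc 0),(.negSucc 0),(.ofNat 1)⟩,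
  ⟨(.ofNat 1),(.ofNat 1),(.ofNat 1),(.ofNat 1),(.negSucc 0),(.ofNat 1),(.ofNat 1),(.negSucc 0)⟩,
  ⟨(.ofNat 1),(.ofNat 1),(.ofNat 1),(.ofNat 1),(.negSucc 0),(.ofNat 1),(.negSucc 0),(.ofNat 1)⟩,
  ⟨(.ofNat 1),(.ofNat 1),(.ofNat 1),(.ofNat 1),(.negSucc 0),(.negSucc 0),(.ofNat 1),(.ofNat 1)⟩,
  ⟨(.ofNat 1),(.ofNat 1),(.ofNat 1),(.ofNat 1),(.negSucc 0),(.negSucc 0),(.negSucc 0),(.negSucc 0)⟩,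
  ⟨(.ofNat 1),(.ofNat 1),(.ofNat 1),(.negSucc 0),(.ofNat 1),(.ofNat 1),(.ofNat 1),(.negSucc 0)⟩,
  ⟨(.ofNat 1),(.ofNat 1),(.ofNat 1),(.negSucc 0),(.ofNat 1),(.ofNat 1),(.negSucc 0),(.ofNat 1)⟩,
  ⟨(.ofNat 1),(.ofNat 1),(.ofNat 1),(.negSucc 0),(.ofNat 1),(.negSucc 0),(.ofNat 1),(.ofNat 1)⟩,
  ⟨(.ofNat 1),(.ofNat 1),(.ofNat 1),(.negSucc 0),(.ofNat 1),(.negSucc 0),(.negSucc 0),(.negSucc 0)⟩,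
  ⟨(.ofNat 1),(.ofNat 1),(.ofNat 1),(.negSucc 0),(.negSucc 0),(.ofNat 1),(.ofNat 1),(.ofNat 1)⟩,
  ⟨(.ofNat 1),(.ofNat 1),(.ofNat 1),(.negSucc 0),(.negSucc 0),(.ofNat 1),(.negSucc 0),(.negSucc 0)⟩,
  ⟨(.ofNat 1),(.ofNat 1),(.ofNat 1),(.negSucc 0),(.negSucc 0),(.negSucc 0),(.ofNat 1),(.negSucc 0)⟩,
  ⟨(.ofNat 1),(.ofNat 1),(.ofNat 1),(.negSucc 0),(.negSucc 0),(.negSucc 0),(.negSucc 0),(.ofNat 1)⟩,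
  ⟨(.ofNat 1),(.ofNat 1),(.negSucc 0),(.ofNat 1),(.ofNat 1),(.ofNat 1),(.ofNat 1),(.negSucc 0)⟩,
  ⟨(.ofNat 1),(.ofNat 1),(.negSucc 0),(.ofNat 1),(.ofNat 1),(.ofNat 1),(.negSucc 0),(.ofNat 1)⟩,
  ⟨(.ofNat 1),(.ofNat 1),(.negSucc 0),(.ofNat 1),(.ofNat 1),(.negSucc 0),(.ofNat 1),(.ofNat 1)⟩,
  ⟨(.ofNat 1),(.ofNat 1),(.negSucc 0),(.ofNat 1),(.ofNat 1),(.negSucc 0),(.negSucc 0),(.negSucc 0)⟩,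
  ⟨(.ofNat 1),(.ofNat 1),(.negSucc 0),(.ofNat 1),(.negSucc 0),(.ofNat 1),(.ofNat 1),(.ofNat 1)⟩,
  ⟨(.ofNat 1),(.ofNat 1),(.negSucc 0),(.ofNat 1),(.negSucc 0),(.ofNat 1),(.negSucc 0),(.negSucc 0)⟩,
  ⟨(.ofNat 1),(.ofNat 1),(.negSucc 0),(.ofNat 1),(.negSucc 0),(.negSucc 0),(.ofNat 1),(.negSucc 0)⟩,
  ⟨(.ofNat 1),(.ofNat 1),(.negSucc 0),(.ofNat 1),(.negSucc 0),(.negSucc 0),(.negSucc 0),(.ofNat 1)⟩,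
  ⟨(.ofNat 1),(.ofNat 1),(.negSucc 0),(.negSucc 0),(.ofNat 1),(.ofNat 1),(.ofNat 1),(.ofNat 1)⟩,
  ⟨(.ofNat 1),(.ofNat 1),(.negSucc 0),(.negSucc 0),(.ofNat 1),(.ofNat 1),(.negSucc 0),(.negSucc 0)⟩,
  ⟨(.ofNat 1),(.ofNat 1),(.negSucc 0),(.negSucc 0),(.ofNat 1),(.negSucc 0),(.ofNat 1),(.negSucc 0)⟩,
  ⟨(.ofNat 1),(.ofNat 1),(.negSucc 0),(.negSucc 0),(.ofNat 1),(.negSucc 0),(.negSucc 0),(.ofNat 1)⟩,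
  ⟨(.ofNat 1),(.ofNat 1),(.negSucc 0),(.negSucc 0),(.negSucc 0),(.ofNat 1),(.ofNat 1),(.negSucc 0)⟩,
  ⟨(.ofNat 1),(.ofNat 1),(.negSucc 0),(.negSucc 0),(.negSucc 0),(.ofNat 1),(.negSucc 0),(.ofNat 1)⟩,
  ⟨(.ofNat 1),(.ofNat 1),(.negSucc 0),(.negSucc 0),(.negSucc 0),(.negSucc 0),(.ofNat 1),(.ofNat 1)⟩,
  ⟨(.ofNat 1),(.ofNat 1),(.negSucc 0),(.negSucc 0),(.negSucc 0),(.negSucc 0),(.negSucc 0),(.negSucc 0)⟩,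
  ⟨(.ofNat 1),(.negSucc 0),(.ofNat 1),(.ofNat 1),(.ofNat 1),(.ofNat 1),(.ofNat 1),(.negSucc 0)⟩,
  ⟨(.ofNat 1),(.negSucc 0),(.ofNat 1),(.ofNat 1),(.ofNat 1),(.ofNat 1),(.negSucc 0),(.ofNat 1)⟩,
  ⟨(.ofNat 1),(.negSucc 0),(.ofNat 1),(.ofNat 1),(.ofNat 1),(.negSucc 0),(.ofNat 1),(.ofNat 1)⟩,
  ⟨(.ofNat 1),(.negSucc 0),(.ofNat 1),(.ofNat 1),(.ofNat 1),(.negSucc 0),(.negSucc 0),(.negSucc 0)⟩,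
  ⟨(.ofNat 1),(.negSucc 0),(.ofNat 1),(.ofNat 1),(.negSucc 0),(.ofNat 1),(.ofNat 1),(.ofNat 1)⟩,
  ⟨(.ofNat 1),(.negSucc 0),(.ofNat 1),(.ofNat 1),(.negSucc 0),(.ofNat 1),(.negSucc 0),(.negSucc 0)⟩,
  ⟨(.ofNat 1),(.negSucc 0),(.ofNat 1),(.ofNat 1),(.negSucc 0),(.negSucc 0),(.ofNat 1),(.negSucc 0)⟩,
  ⟨(.ofNat 1),(.negSucc 0),(.ofNat 1),(.ofNat 1),(.negSucc 0),(.negSucc 0),(.negSucc 0),(.ofNat 1)⟩,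
  ⟨(.ofNat 1),(.negSucc 0),(.ofNat 1),(.negSucc 0),(.ofNat 1),(.ofNat 1),(.ofNat 1),(.ofNat 1)⟩,
  ⟨(.ofNat 1),(.negSucc 0),(.ofNat 1),(.negSucc 0),(.ofNat 1),(.ofNat 1),(.negSucc 0),(.negSucc 0)⟩,
  ⟨(.ofNat 1),(.negSucc 0),(.ofNat 1),(.negSucc 0),(.ofNat 1),(.negSucc 0),(.ofNat 1),(.negSucc 0)⟩,
  ⟨(.ofNat 1),(.negSucc 0),(.ofNat 1),(.negSucc 0),(.ofNat 1),(.negSucc 0),(.negSucc 0),(.ofNat 1)⟩,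
  ⟨(.ofNat 1),(.negSucc 0),(.ofNat 1),(.negSucc 0),(.negSucc 0),(.ofNat 1),(.ofNat 1),(.negSucc 0)⟩,
  ⟨(.ofNat 1),(.negSucc 0),(.ofNat 1),(.negSucc 0),(.negSucc 0),(.ofNat 1),(.negSucc 0),(.ofNat 1)⟩,
  ⟨(.ofNat 1),(.negSucc 0),(.ofNat 1),(.negSucc 0),(.negSucc 0),(.negSucc 0),(.ofNat 1),(.ofNat 1)⟩,
  ⟨(.ofNat 1),(.negSucc 0),(.ofNat 1),(.negSucc 0),(.negSucc 0),(.negSucc 0),(.negSucc 0),(.negSucc 0)⟩,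
  ⟨(.ofNat 1),(.negSucc 0),(.negSucc 0),(.ofNat 1),(.ofNat 1),(.ofNat 1),(.ofNat 1),(.ofNat 1)⟩,
  ⟨(.ofNat 1),(.negSucc 0),(.negSucc 0),(.ofNat 1),(.ofNat 1),(.ofNat 1),(.negSucc 0),(.negSucc 0)⟩,
  ⟨(.ofNat 1),(.negSucc 0),(.negSucc 0),(.ofNat 1),(.ofNat 1),(.negSucc 0),(.ofNat 1),(.negSucc 0)⟩,
  ⟨(.ofNat 1),(.negSucc 0),(.negSucc 0),(.ofNat 1),(.ofNat 1),(.negSucc 0),(.negSucc 0),(.ofNat 1)⟩,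
  ⟨(.ofNat 1),(.negSucc 0),(.negSucc 0),(.ofNat 1),(.negSucc 0),(.ofNat 1),(.ofNat 1),(.negSucc 0)⟩,
  ⟨(.ofNat 1),(.negSucc 0),(.negSucc 0),(.ofNat 1),(.negSucc 0),(.ofNat 1),(.negSucc 0),(.ofNat 1)⟩,
  ⟨(.ofNat 1),(.negSucc 0),(.negSucc 0),(.ofNat 1),(.negSucc 0),(.negSucc 0),(.ofNat 1),(.ofNat 1)⟩,
  ⟨(.ofNat 1),(.negSucc 0),(.negSucc 0),(.ofNat 1),(.negSucc 0),(.negSucc 0),(.negSucc 0),(.negSucc 0)⟩,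
  ⟨(.ofNat 1),(.negSucc 0),(.negSucc 0),(.negSucc 0),(.ofNat 1),(.ofNat 1),(.ofNat 1),(.negSucc 0)⟩,
  ⟨(.ofNat 1),(.negSucc 0),(.negSucc 0),(.negSucc 0),(.ofNat 1),(.ofNat 1),(.negSucc 0),(.ofNat 1)⟩,
  ⟨(.ofNat 1),(.negSucc 0),(.negSucc 0),(.negSucc 0),(.ofNat 1),(.negSucc 0),(.ofNat 1),(.ofNat 1)⟩,
  ⟨(.ofNat 1),(.negSucc 0),(.negSucc 0),(.negSucc 0),(.ofNat 1),(.negSucc 0),(.negSucc 0),(.negSucc 0)⟩,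
  ⟨(.ofNat 1),(.negSucc 0),(.negSucc 0),(.negSucc 0),(.negSucc 0),(.ofNat 1),(.ofNat 1),(.ofNat 1)⟩,
  ⟨(.ofNat 1),(.negSucc 0),(.negSucc 0),(.negSucc 0),(.negSucc 0),(.ofNat 1),(.negSucc 0),(.negSucc 0)⟩,
  ⟨(.ofNat 1),(.negSucc 0),(.negSucc 0),(.negSucc 0),(.negSucc 0),(.negSucc 0),(.ofNat 1),(.negSucc 0)⟩,
  ⟨(.ofNat 1),(.negSucc 0),(.negSucc 0),(.negSucc 0),(.negSucc 0),(.negSucc 0),(.negSucc 0),(.ofNat 1)⟩]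

/-- Gram matrix of the basis. -/
def G : Fin 8 → Fin 8 → ℤ := ![
  ![2,0,0,0,0,0,0,1],
  ![0,2,1,1,1,1,1,-2],
  ![0,1,2,1,1,1,1,-2],
  ![0,1,1,2,1,1,1,-2],
  ![0,1,1,1,2,1,1,-2],
  ![0,1,1,1,1,2,1,-2],
  ![0,1,1,1,1,1,2,-2],
  ![1,-2,-2,-2,-2,-2,-2,4]]

/-- The basis in doubled coordinates. -/
def Bs : Fin 8 → Fin 8 → ℤ := ![
  ![1,1,1,1,1,1,1,1],
  ![0,2,0,0,0,0,0,-2],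
  ![0,0,2,0,0,0,0,-2],
  ![0,0,0,2,0,0,0,-2],
  ![0,0,0,0,2,0,0,-2],
  ![0,0,0,0,0,2,0,-2],
  ![0,0,0,0,0,0,2,-2],
  ![0,0,0,0,0,0,0,4]]

/-- The quadratic form (half the norm). -/
def qf (c : Fin 8 → ℤ) : ℤ :=
  c 0 ^ 2 + c 0 * c 7 + c 1 ^ 2 + c 2 ^ 2 + c 3 ^ 2 + c 4 ^ 2 + c 5 ^ 2 + c 6 ^ 2
    + c 1 * c 2 + c 1 * c 3 + c 1 * c 4 + c 1 * c 5 + c 1 * c 6
    + c 2 * c 3 + c 2 * c 4 + c 2 * c 5 + c 2 * c 6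
    + c 3 * c 4 + c 3 * c 5 + c 3 * c 6
    + c 4 * c 5 + c 4 * c 6 + c 5 * c 6
    - 2 * (c 1 + c 2 + c 3 + c 4 + c 5 + c 6) * c 7 + 2 * c 7 ^ 2

/-- Parity of an integer. -/
def pb : ℤ → Bool
  | .ofNat n => n % 2 == 1
  | .negSucc n => n % 2 == 0

/-- Parity of the pairing with a 0-1 vector. -/
def ob (b0 b1 b2 b3 b4 b5 b6 b7 : Bool) (v : V8) : Bool :=
  xor (xor (xor (b0 && pb v.a0) (b1 && pb v.a1)) (xor (b2 && pb v.a2) (b3 && pb v.a3)))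
    (xor (xor (b4 && pb v.a4) (b5 && pb v.a5)) (xor (b6 && pb v.a6) (b7 && pb v.a7)))

/-- Parity of `qf` at a 0-1 vector. -/
def qpar (b0 b1 b2 b3 b4 b5 b6 b7 : Bool) : Bool :=
  xor (xor (xor b0 (b0 && b7)) (xor (xor b1 (xor b2 b3)) (xor b4 (xor b5 b6))))
    (xor (xor (b1 && xor (xor b2 b3) (xor b4 (xor b5 b6))) (b2 && xor b3 (xor b4 (xor b5 b6))))
      (xor (b3 && xor b4 (xor b5 b6)) (xor (b4 && xor b5 b6) (b5 && b6))))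

/-- Sum of products of two functions over a list. -/
def sm (f g : V8 → ℤ) (F : List V8) : ℤ := (F.map (fun v => f v * g v)).sum

/-- The quadratic moments of a list are those of the form. -/
def mchk (F : List V8) : Bool :=
  (sm V8.a0 V8.a0 F == 32) &&
  (sm V8.a0 V8.a1 F == 0) &&
  (sm V8.a0 V8.a2 F == 0) &&
  (sm V8.a0 V8.a3 F == 0) &&
  (sm V8.a0 V8.a4 F == 0) &&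
  (sm V8.a0 V8.a5 F == 0) &&
  (sm V8.a0 V8.a6 F == 0) &&
  (sm V8.a0 V8.a7 F == 16) &&
  (sm V8.a1 V8.a1 F == 32) &&
  (sm V8.a1 V8.a2 F == 16) &&
  (sm V8.a1 V8.a3 F == 16) &&
  (sm V8.a1 V8.a4 F == 16) &&
  (sm V8.a1 V8.a5 F == 16) &&
  (sm V8.a1 V8.a6 F == 16) &&
  (sm V8.a1 V8.a7 F == -32) &&
  (sm V8.a2 V8.a2 F == 32) &&
  (sm V8.a2 V8.a3 F == 16) &&
  (sm V8.a2 V8.a4 F == 16) &&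
  (sm V8.a2 V8.a5 F == 16) &&
  (sm V8.a2 V8.a6 F == 16) &&
  (sm V8.a2 V8.a7 F == -32) &&
  (sm V8.a3 V8.a3 F == 32) &&
  (sm V8.a3 V8.a4 F == 16) &&
  (sm V8.a3 V8.a5 F == 16) &&
  (sm V8.a3 V8.a6 F == 16) &&
  (sm V8.a3 V8.a7 F == -32) &&
  (sm V8.a4 V8.a4 F == 32) &&
  (sm V8.a4 V8.a5 F == 16) &&
  (sm V8.a4 V8.a6 F == 16) &&
  (sm V8.a4 V8.a7 F == -32) &&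
  (sm V8.a5 V8.a5 F == 32) &&
  (sm V8.a5 V8.a6 F == 16) &&
  (sm V8.a5 V8.a7 F == -32) &&
  (sm V8.a6 V8.a6 F == 32) &&
  (sm V8.a6 V8.a7 F == -32) &&
  (sm V8.a7 V8.a7 F == 64)

end Pool.Agent.Q10.E8
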